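import Mathlib

set_option autoImplicit false

/-!
# Periods of the Legendre curves `E_{1/N}`: relations of bounded degree (MP_5d33ca_ag)

Definitions.  Exact targets: `Targets.lean`; complete proofs: `Blueprint.lean.txt`.
-/

namespace Pool.Agent.Leg

open Finset Filter Topology
open scoped BigOperators

/-! ## Power series with geometric growth and geometric denominators -/

/-- `g^(n) / n!` -/
noncomputable def dd (n : ℕ) (g : PowerSeries ℚ) : PowerSeries ℚ :=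
  PowerSeries.mk fun s => ((s + n).choose n : ℚ) * PowerSeries.coeff (s + n) g

/-- `z^n g^(n) / n!` -/
noncomputable def th (n : ℕ) (g : PowerSeries ℚ) : PowerSeries ℚ :=
  PowerSeries.mk fun s => (s.choose n : ℚ) * PowerSeries.coeff s g

/-- derivative -/
noncomputable def dX (g : PowerSeries ℚ) : PowerSeries ℚ := PowerSeries.derivative ℚ g

/-- geometric growth and geometric denominators -/
def GT (g : PowerSeries ℚ) : Prop := ∃ C : ℕ, ∀ n, |PowerSeries.coeff n g| ≤ (C : ℚ) ^ (n + 1) ∧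
  ∃ d : ℕ, 0 < d ∧ d ≤ C ^ (n + 1) ∧ ∀ m ≤ n, ∃ x : ℤ, (d : ℚ) * PowerSeries.coeff m g = x

/-- growth only, with an explicit real constant -/
def GB (C : ℝ) (g : PowerSeries ℚ) : Prop := ∀ n, |((PowerSeries.coeff n g : ℚ) : ℝ)| ≤ C ^ (n + 1)

/-- geometric growth and denominators for a sequence of power series -/
def GT2 (w : ℕ → PowerSeries ℚ) : Prop := ∃ C : ℕ, ∀ S,
  (∀ s n, s + n ≤ S → |PowerSeries.coeff s (w n)| ≤ (C : ℚ) ^ (S + 1)) ∧
  ∃ d : ℕ, 0 < d ∧ d ≤ C ^ (S + 1) ∧ ∀ s n, s + n ≤ S →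
    ∃ x : ℤ, (d : ℚ) * PowerSeries.coeff s (w n) = x

/-- the same for a sequence of matrices of polynomials -/
def GM {ι : Type} (G : ℕ → ι → ι → Polynomial ℚ) : Prop := ∃ C : ℕ, ∀ n,
  (∀ i j, (G n i j).natDegree ≤ C * (n + 1)) ∧
  (∀ i j s, |(G n i j).coeff s| ≤ (C : ℚ) ^ (n + 1)) ∧
  ∃ d : ℕ, 0 < d ∧ d ≤ C ^ (n + 1) ∧ ∀ m ≤ n, ∀ i j s, ∃ x : ℤ, (d : ℚ) * (G m i j).coeff s = x

/-- value at a real point -/
noncomputable def vl (g : PowerSeries ℚ) (x : ℝ) : ℝ := ∑' n, ((PowerSeries.coeff n g : ℚ) : ℝ) * x ^ n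

/-- value at a complex point -/
noncomputable def cv (g : PowerSeries ℚ) (x : ℂ) : ℂ := ∑' n, ((PowerSeries.coeff n g : ℚ) : ℂ) * x ^ n

/-- Taylor expansion of a polynomial at `z0` -/
noncomputable def ty (z0 : ℚ) (p : Polynomial ℚ) : PowerSeries ℚ :=
  ((Polynomial.taylor z0 p : Polynomial ℚ) : PowerSeries ℚ)

/-- Taylor expansion of a power series at a real point -/
noncomputable def sh (x : ℝ) (g : PowerSeries ℚ) : PowerSeries ℝ :=
  PowerSeries.mk fun j => ∑' s : ℕ,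
    ((s + j).choose j : ℝ) * ((PowerSeries.coeff (s + j) g : ℚ) : ℝ) * x ^ s

/-! ## Differential systems with nilpotent residue at `0` -/

/-- `T = z + ...` with integer coefficients -/
def TOK (T : Polynomial ℚ) : Prop := T.coeff 0 = 0 ∧ T.coeff 1 = 1 ∧ ∀ s, ∃ x : ℤ, T.coeff s = x

section
variable {ι : Type} [Fintype ι]

/-- `T f' = A f` -/
def Sol (T : Polynomial ℚ) (A : ι → ι → Polynomial ℚ) (f : ι → PowerSeries ℚ) : Prop :=
  ∀ i, (T : PowerSeries ℚ) * dX (f i) = ∑ j, (A i j : PowerSeries ℚ) * f j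

/-- linear independence over the polynomials -/
def Ind (f : ι → PowerSeries ℚ) : Prop :=
  ∀ p : ι → Polynomial ℚ, ∑ i, (p i : PowerSeries ℚ) * f i = 0 → p = 0

/-- a system of `G`-functions -/
structure GSys [DecidableEq ι] (T : Polynomial ℚ) (f : ι → PowerSeries ℚ) : Prop where
  gt : ∀ i, GT (f i)
  ex : ∃ G : ℕ → ι → ι → Polynomial ℚ, GM G ∧
    (∀ n i, (T : PowerSeries ℚ) ^ n * dd n (f i) = ∑ j, (G n i j : PowerSeries ℚ) * f j) ∧
    IsNilpotent (Matrix.of fun i j => (G 1 i j).coeff 0)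

/-- `V_k = T^k ∇^k P`, `∇ P = P' - T⁻¹ A P` -/
noncomputable def VV (T : Polynomial ℚ) (A : ι → ι → Polynomial ℚ) (P : ι → Polynomial ℚ) :
    ℕ → ι → Polynomial ℚ
  | 0 => P
  | (k + 1) => fun i => T * Polynomial.derivative (VV T A P k i) -
      (k : Polynomial ℚ) * Polynomial.derivative T * VV T A P k i - ∑ j, A i j * VV T A P k j

/-- numbering of a finite type -/
noncomputable def num (i : ι) : ℕ := (Fintype.equivFin ι i : ℕ)

/-- the determinant of `V_0, ..., V_(M-1)` -/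
noncomputable def WW [DecidableEq ι] (T : Polynomial ℚ) (A : ι → ι → Polynomial ℚ)
    (P : ι → Polynomial ℚ) : Polynomial ℚ :=
  Matrix.det (fun (K J : ι) => VV T A P (num K) J)

/-- simultaneous approximation `P_i = P_o f_i + O(z^σ)` -/
structure Pade (f : ι → PowerSeries ℚ) (o : ι) (m σ : ℕ) (P : ι → Polynomial ℚ) : Prop where
  ne : P o ≠ 0
  deg : ∀ i, (P i).natDegree ≤ m
  ord : ∀ i, (PowerSeries.X : PowerSeries ℚ) ^ σ ∣
    (P o : PowerSeries ℚ) * f i - (P i : PowerSeries ℚ)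

/-- the recursion of the matrices `G_n`, `T^n f^(n)/n! = G_n f` -/
def GRec [DecidableEq ι] (T : Polynomial ℚ) (G : ℕ → ι → ι → Polynomial ℚ) : Prop :=
  (∀ i j, G 0 i j = if i = j then 1 else 0) ∧
  ∀ (n : ℕ) (i j : ι), ((n : Polynomial ℚ) + 1) * G (n + 1) i j = T * Polynomial.derivative (G n i j) -
    (n : Polynomial ℚ) * Polynomial.derivative T * G n i j + ∑ l, G n i l * G 1 l j

/-- `Ψ(w) = ∑ (-w)^n G_n(z0 + w) T(z0 + w)^(-n)` -/
noncomputable def psi (T : Polynomial ℚ) (G : ℕ → ι → ι → Polynomial ℚ) (z0 : ℚ) (i j : ι) :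
    PowerSeries ℚ :=
  PowerSeries.mk fun k => ∑ n ∈ range (k + 1), (-1 : ℚ) ^ n *
    PowerSeries.coeff (k - n) (ty z0 (G n i j) * (ty z0 T)⁻¹ ^ n)

/-- `k`-th coefficient at `z0` of `Ψ P` -/
noncomputable def pk (T : Polynomial ℚ) (G : ℕ → ι → ι → Polynomial ℚ) (z0 : ℚ)
    (P : ι → Polynomial ℚ) (k : ℕ) (i : ι) : ℚ :=
  PowerSeries.coeff k (∑ j, psi T G z0 i j * ty z0 (P j))

end

/-! ## The series -/

/-- `(binom(2n, n) / 4^n)^2` -/
def cF (n : ℕ) : ℚ := (n.centralBinom : ℚ) ^ 2 / 16 ^ n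

/-- `∑_{j ≤ n} 1 / ((2j-1)(2j))` -/
def bb (n : ℕ) : ℚ := ∑ j ∈ range n, 1 / ((2 * (j : ℚ) + 1) * (2 * (j : ℚ) + 2))

/-- `(2/π) K` -/
noncomputable def sF : PowerSeries ℚ := PowerSeries.mk cF

/-- `(2/π) E` -/
noncomputable def sE : PowerSeries ℚ := PowerSeries.mk fun n => -(cF n / (2 * (n : ℚ) - 1))

/-- the series `B` of the second solution `1/2 log(1/z) F - 2 B` -/
noncomputable def sB : PowerSeries ℚ := PowerSeries.mk fun n => cF n * bb n

/-- its companion -/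
noncomputable def sH : PowerSeries ℚ :=
  2 * PowerSeries.X * (1 - PowerSeries.X) * dX sB + (1 - PowerSeries.X) * sB +
    PowerSeries.C (1 / 2 : ℚ) * (1 - PowerSeries.X) * sF

/-- `log (1 + a z)` -/
noncomputable def lg (a : ℕ) : PowerSeries ℚ :=
  PowerSeries.mk fun s => -((-(a : ℚ)) ^ s / (s : ℚ))

/-- `1 / (1 + a z)` -/
noncomputable def ip (a : ℚ) : PowerSeries ℚ := PowerSeries.mk fun s => (-a) ^ s

/-- `g (z / (1 + a z))` -/
noncomputable def sb (a : ℕ) (g : PowerSeries ℚ) : PowerSeries ℚ :=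
  PowerSeries.mk fun n => ∑ s ∈ range (n + 1),
    PowerSeries.coeff s g * PowerSeries.coeff n ((PowerSeries.X * ip a) ^ s)

/-- the block of `a` -/
noncomputable def fa (a : ℕ) : Fin 4 → PowerSeries ℚ := ![sb a sF, sb a sE, sb a sB, sb a sH]

/-- `z f' = AA f` for `f = fa a` -/
noncomputable def AA (a : ℕ) : Fin 4 → Fin 4 → PowerSeries ℚ :=
  let p : PowerSeries ℚ := ip a
  let q : PowerSeries ℚ := ip ((a : ℚ) - 1)
  let h : PowerSeries ℚ := PowerSeries.C (1 / 2 : ℚ)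
  let k : PowerSeries ℚ := PowerSeries.C (1 / 4 : ℚ)
  ![![-(h * p), h * q, 0, 0], ![-(h * p), h * p, 0, 0],
    ![-(k * p), 0, -(h * p), h * q], ![0, -(k * p), -(h * p), h * p]]

/-- `T = z ∏ (1 + (a_i - 1) z) (1 + a_i z)` -/
noncomputable def TT {r : ℕ} (a : Fin r → ℕ) : Polynomial ℚ :=
  Polynomial.X * ∏ i, (1 + Polynomial.C ((a i : ℚ) - 1) * Polynomial.X) *
    (1 + Polynomial.C (a i : ℚ) * Polynomial.X)

/-- `1`, the blocks and the logarithms -/
noncomputable def fs {r : ℕ} (a : Fin r → ℕ) : Option (Fin r × Fin 5) → PowerSeries ℚ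
  | none => 1
  | some (i, j) => ![sb (a i) sF, sb (a i) sE, sb (a i) sB, sb (a i) sH, lg (a i)] j

/-- products of `B` of them -/
noncomputable def mon {r : ℕ} (a : Fin r → ℕ) (B : ℕ) (J : Fin B → Option (Fin r × Fin 5)) :
    PowerSeries ℚ := ∏ b, fs a (J b)

/-- the algebraically independent series -/
noncomputable def xs {r : ℕ} (a : Fin r → ℕ) (p : Fin r × Fin 4) : PowerSeries ℚ :=
  ![sb (a p.1) sF, sb (a p.1) sE, sb (a p.1) sB, lg (a p.1)] p.2

/-- the parameters: distinct positive multiples of four -/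
def Aok {r : ℕ} (a : Fin r → ℕ) : Prop := Function.Injective a ∧ ∀ i, 4 ≤ a i ∧ 4 ∣ a i

/-! ## Elliptic integrals -/

/-- complete elliptic integral of the first kind, parameter `l = k²` -/
noncomputable def ellK (l : ℝ) : ℝ := ∫ t in (0 : ℝ)..(Real.pi / 2), 1 / √(1 - l * Real.sin t ^ 2)

/-- complete elliptic integral of the second kind -/
noncomputable def ellE (l : ℝ) : ℝ := ∫ t in (0 : ℝ)..(Real.pi / 2), √(1 - l * Real.sin t ^ 2)

/-- complex versions -/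
noncomputable def Kc (l : ℂ) : ℂ :=
  ∫ t in (0 : ℝ)..(Real.pi / 2), (1 - l * (Real.sin t : ℂ) ^ 2) ^ (-(1 / 2) : ℂ)

noncomputable def Ec (l : ℂ) : ℂ :=
  ∫ t in (0 : ℝ)..(Real.pi / 2), (1 - l * (Real.sin t : ℂ) ^ 2) ^ ((1 / 2) : ℂ)

/-- `z / (1 + a z)` -/
noncomputable def la (a : ℕ) (z : ℂ) : ℂ := z / (1 + a * z)

/-- variables: `K_i, E_i, K'_i, K'_i - E'_i, log(1 + a_i z)`, and `z`, `log z` -/
abbrev Vr (r : ℕ) : Type := (Fin r × Fin 5) ⊕ Fin 2

/-- the functions on the upper half plane -/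
noncomputable def hv {r : ℕ} (a : Fin r → ℕ) : Vr r → ℂ → ℂ
  | Sum.inl (i, j) => fun z => ![Kc (la (a i) z), Ec (la (a i) z), Kc (1 - la (a i) z),
      Kc (1 - la (a i) z) - Ec (1 - la (a i) z), Complex.log (1 + a i * z)] j
  | Sum.inr j => fun z => ![z, Complex.log z] j

/-- the upper half plane -/
def UH : Set ℂ := {z | 0 < z.im}

/-- the polynomial `P` in the functions vanishes on the upper half plane -/
def Van {r : ℕ} (a : Fin r → ℕ) (P : MvPolynomial (Vr r) ℂ) : Prop :=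
  ∀ z ∈ UH, MvPolynomial.aeval (fun v => hv a v z) P = 0

/-- `Λ` is large, but smaller than any power of `1/|z - s|`, for `z → s` in the upper half plane -/
def Lk (s : ℂ) (Λ : ℂ → ℂ) : Prop := Tendsto (fun z => ‖Λ z‖) (𝓝[UH] s) atTop ∧
  ∀ k : ℕ, Tendsto (fun z => (z - s) * Λ z ^ k) (𝓝[UH] s) (𝓝 0)

/-- near `s` all functions are linear in one logarithm `Λ`, with coefficients analytic at `s`; the
coefficients of `Λ` are the polynomials `d v` in the functions -/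
def Near {r : ℕ} (a : Fin r → ℕ) (s : ℂ) (d : Vr r → MvPolynomial (Vr r) ℂ) : Prop :=
  ∃ (Λ : ℂ → ℂ) (Af Cf : Vr r → ℂ → ℂ), Lk s Λ ∧ (∀ v, AnalyticAt ℂ (Af v) s) ∧
    (∀ v, AnalyticAt ℂ (Cf v) s) ∧ ∀ᶠ z in 𝓝[UH] s, ∀ v,
      hv a v z = Af v z * Λ z + Cf v z ∧
      Af v z = MvPolynomial.aeval (fun w => hv a w z) (d v)

open MvPolynomial in
/-- `f_i : K_i ↦ c K'_i, E_i ↦ c (K'_i - E'_i)` -/
noncomputable def dF {r : ℕ} (i : Fin r) (c : ℂ) : Vr r → MvPolynomial (Vr r) ℂ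
  | Sum.inl (j, l) => if j = i then ![C c * X (Sum.inl (i, 2)), C c * X (Sum.inl (i, 3)), 0, 0, 0] l
      else 0
  | Sum.inr _ => 0

open MvPolynomial in
/-- `e_i : K'_i ↦ c K_i, K'_i - E'_i ↦ c E_i` -/
noncomputable def dE {r : ℕ} (i : Fin r) (c : ℂ) : Vr r → MvPolynomial (Vr r) ℂ
  | Sum.inl (j, l) => if j = i then ![0, 0, C c * X (Sum.inl (i, 0)), C c * X (Sum.inl (i, 1)), 0] l
      else 0
  | Sum.inr _ => 0

open MvPolynomial in
/-- `h_i : K_i, E_i` have weight `1`, and `K'_i, K'_i - E'_i` weight `-1` -/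
noncomputable def dH {r : ℕ} (i : Fin r) : Vr r → MvPolynomial (Vr r) ℂ
  | Sum.inl (j, l) => if j = i then ![X (Sum.inl (i, 0)), X (Sum.inl (i, 1)),
      -X (Sum.inl (i, 2)), -X (Sum.inl (i, 3)), 0] l else 0
  | Sum.inr _ => 0

open MvPolynomial in
/-- all `e_j`, and `log z ↦ -1` -/
noncomputable def d0 {r : ℕ} (c : ℂ) : Vr r → MvPolynomial (Vr r) ℂ
  | Sum.inl (j, l) => ![0, 0, C c * X (Sum.inl (j, 0)), C c * X (Sum.inl (j, 1)), 0] l
  | Sum.inr l => ![0, -1] l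

/-! ## Relations -/

/-- the polynomial `P(θ, y)` in `y` -/
noncomputable def sp {κ ι : Type} (θ : κ → ℂ) (P : MvPolynomial (κ ⊕ ι) ℤ) : MvPolynomial ι ℂ :=
  MvPolynomial.aeval (Sum.elim (fun i => MvPolynomial.C (θ i)) MvPolynomial.X) P

/-- `y` satisfies a nontrivial polynomial relation over `ℤ[θ]` of total degree at most `D` -/
def Rel {κ ι : Type} (D : ℕ) (θ : κ → ℂ) (y : ι → ℂ) : Prop :=
  ∃ P : MvPolynomial (κ ⊕ ι) ℤ, P.totalDegree ≤ D ∧ sp θ P ≠ 0 ∧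
    MvPolynomial.aeval (Sum.elim θ y) P = 0

/-- the three numbers `K(1/t), E(1/t), K(1 - 1/t)` -/
noncomputable def pr (t : ℕ) : Fin 3 → ℂ :=
  ![(ellK (1 / t) : ℂ), (ellE (1 / t) : ℂ), (ellK (1 - 1 / t) : ℂ)]

end Pool.Agent.Leg
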