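import Pool.Agent.Leg.Targets

set_option autoImplicit false

namespace Pool.Agent.Leg

open Finset Filter Topology
open scoped BigOperators

namespace GF_

/-- the numerical inequality -/
theorem key (C1 C2 C3 M L n k m σ N : ℕ) (S : ℝ) (hC1 : 1 ≤ C1) (hC2 : 1 ≤ C2) (hC3 : 1 ≤ C3)
    (hM : 1 ≤ M) (hn : 1 ≤ n) (hL : L = 2 * (C2 + C3) * M + 2) (hm : m = (M - 1) * L * n)
    (hσ : σ = m + 1 + (L - 1) * n) (hk : k ≤ M * n) (hS : 0 ≤ S) (hS2 : S < 2 ^ n)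
    (hN : 2 * ((C2 * C3) ^ (M + 1) * (C1 * C3 * C1 ^ L) ^ (M * L + 1) * 2 ^ (M * L)) ≤ N) :
    (((C2 : ℝ) * (N : ℝ) ^ C2) ^ (k + 1) * ((N : ℝ) ^ m * (C1 : ℝ) ^ σ)) *
      (S * ((C3 : ℝ) * (N : ℝ) ^ C3) ^ (k + 1) * (C3 : ℝ) ^ σ * (m + 1) * (C1 : ℝ) ^ (L * σ) /
        (N : ℝ) ^ σ) < 1 := by
  set D : ℕ := (C2 * C3) ^ (M + 1) * (C1 * C3 * C1 ^ L) ^ (M * L + 1) * 2 ^ (M * L) with hD
  have hD1 : 1 ≤ D := by
    rw [hD]
    have h1 : 1 ≤ (C2 * C3) ^ (M + 1) := Nat.one_le_pow _ _ (Nat.mul_pos hC2 hC3)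
    have h2 : 1 ≤ (C1 * C3 * C1 ^ L) ^ (M * L + 1) :=
      Nat.one_le_pow _ _ (Nat.mul_pos (Nat.mul_pos hC1 hC3) (Nat.pow_pos hC1))
    have h3 : 1 ≤ 2 ^ (M * L) := Nat.one_le_two_pow
    exact Nat.mul_le_mul (Nat.mul_le_mul h1 h2) h3
  have hN1 : 1 ≤ N := by omega
  have hNr : (1 : ℝ) ≤ N := by exact_mod_cast hN1
  have hNpos : (0 : ℝ) < N := by linarith
  have hc2 : (1 : ℝ) ≤ C2 := by exact_mod_cast hC2
  have hc3 : (1 : ℝ) ≤ C3 := by exact_mod_cast hC3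
  have hc1 : (1 : ℝ) ≤ C1 := by exact_mod_cast hC1
  have hb2 : (1 : ℝ) ≤ (C2 : ℝ) * (N : ℝ) ^ C2 :=
    one_le_mul_of_one_le_of_one_le hc2 (one_le_pow₀ hNr)
  have hb3 : (1 : ℝ) ≤ (C3 : ℝ) * (N : ℝ) ^ C3 :=
    one_le_mul_of_one_le_of_one_le hc3 (one_le_pow₀ hNr)
  have e2 : ((C2 : ℝ) * (N : ℝ) ^ C2) ^ (k + 1) ≤ ((C2 : ℝ) * (N : ℝ) ^ C2) ^ (M * n + 1) :=
    pow_le_pow_right₀ hb2 (by omega)
  have e3 : ((C3 : ℝ) * (N : ℝ) ^ C3) ^ (k + 1) ≤ ((C3 : ℝ) * (N : ℝ) ^ C3) ^ (M * n + 1) :=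
    pow_le_pow_right₀ hb3 (by omega)
  -- exponent of N
  have hEx : (C2 + C3) * (M * n + 1) + m + (n + 1) ≤ σ := by
    have h1 : (L - 1) * n = 2 * ((C2 + C3) * (M * n)) + n := by
      have : L - 1 = 2 * (C2 + C3) * M + 1 := by omega
      rw [this]; ring
    have h2 : 1 ≤ M * n := Nat.mul_pos hM hn
    have h3 : (C2 + C3) * 1 ≤ (C2 + C3) * (M * n) := Nat.mul_le_mul_left _ h2
    have h4 : (C2 + C3) * (M * n + 1) = (C2 + C3) * (M * n) + (C2 + C3) * 1 := by ring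
    rw [hσ, h1, h4]
    omega
  -- size of the constants
  have hσle : σ ≤ (M * L + 1) * n := by
    have h1 : (M - 1) * L * n + L * n = M * L * n := by
      obtain ⟨M', rfl⟩ : ∃ M', M = M' + 1 := ⟨M - 1, by omega⟩
      simp only [Nat.add_sub_cancel]; ring
    have h2 : (L - 1) * n ≤ L * n := Nat.mul_le_mul_right _ (Nat.sub_le _ _)
    have h3 : (M * L + 1) * n = M * L * n + n := by ring
    rw [hσ, hm, h3]
    omega
  have hmle : m + 1 ≤ 2 ^ (M * L * n) := by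
    have h1 : m ≤ M * L * n := by
      rw [hm]
      exact Nat.mul_le_mul_right _ (Nat.mul_le_mul_right _ (Nat.sub_le _ _))
    have h2 : m < 2 ^ m := Nat.lt_two_pow_self
    have h3 : 2 ^ m ≤ 2 ^ (M * L * n) := Nat.pow_le_pow_right (by norm_num) h1
    omega
  have hcon : (C2 * C3) ^ (M * n + 1) * (C1 * C3 * C1 ^ L) ^ σ * (m + 1) ≤ D ^ n := by
    have h1 : (C2 * C3) ^ (M * n + 1) ≤ (C2 * C3) ^ ((M + 1) * n) := by
      apply Nat.pow_le_pow_right (Nat.mul_pos hC2 hC3)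
      have : (M + 1) * n = M * n + n := by ring
      omega
    have h2 : (C1 * C3 * C1 ^ L) ^ σ ≤ (C1 * C3 * C1 ^ L) ^ ((M * L + 1) * n) :=
      Nat.pow_le_pow_right (Nat.mul_pos (Nat.mul_pos hC1 hC3) (Nat.pow_pos hC1)) hσle
    calc (C2 * C3) ^ (M * n + 1) * (C1 * C3 * C1 ^ L) ^ σ * (m + 1)
        ≤ (C2 * C3) ^ ((M + 1) * n) * (C1 * C3 * C1 ^ L) ^ ((M * L + 1) * n) * 2 ^ (M * L * n) :=
          Nat.mul_le_mul (Nat.mul_le_mul h1 h2) hmle
      _ = D ^ n := by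
          rw [hD, mul_pow _ (2 ^ (M * L)) n, mul_pow ((C2 * C3) ^ (M + 1)), ← pow_mul, ← pow_mul,
            ← pow_mul]
  have hconr : ((C2 : ℝ) * C3) ^ (M * n + 1) * ((C1 : ℝ) * C3 * (C1 : ℝ) ^ L) ^ σ * (m + 1) ≤
      (D : ℝ) ^ n := by exact_mod_cast hcon
  have hDN : (D : ℝ) ^ n * 2 ^ n ≤ (N : ℝ) ^ n := by
    rw [← mul_pow]
    apply pow_le_pow_left₀ (by positivity)
    have : (2 * D : ℕ) ≤ N := hN
    have h2 : ((2 * D : ℕ) : ℝ) ≤ N := by exact_mod_cast this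
    push_cast at h2
    linarith
  -- main estimate
  have hNσ : (N : ℝ) ^ ((C2 + C3) * (M * n + 1) + m + (n + 1)) ≤ (N : ℝ) ^ σ :=
    pow_le_pow_right₀ hNr hEx
  have hσpos : (0 : ℝ) < (N : ℝ) ^ σ := by positivity
  have hstep : (((C2 : ℝ) * (N : ℝ) ^ C2) ^ (k + 1) * ((N : ℝ) ^ m * (C1 : ℝ) ^ σ)) *
      (S * ((C3 : ℝ) * (N : ℝ) ^ C3) ^ (k + 1) * (C3 : ℝ) ^ σ * (m + 1) * (C1 : ℝ) ^ (L * σ)) ≤
      S * (((C2 : ℝ) * C3) ^ (M * n + 1) * ((C1 : ℝ) * C3 * (C1 : ℝ) ^ L) ^ σ * (m + 1)) *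
        (N : ℝ) ^ ((C2 + C3) * (M * n + 1) + m) := by
    calc (((C2 : ℝ) * (N : ℝ) ^ C2) ^ (k + 1) * ((N : ℝ) ^ m * (C1 : ℝ) ^ σ)) *
        (S * ((C3 : ℝ) * (N : ℝ) ^ C3) ^ (k + 1) * (C3 : ℝ) ^ σ * (m + 1) * (C1 : ℝ) ^ (L * σ))
        ≤ (((C2 : ℝ) * (N : ℝ) ^ C2) ^ (M * n + 1) * ((N : ℝ) ^ m * (C1 : ℝ) ^ σ)) *
        (S * ((C3 : ℝ) * (N : ℝ) ^ C3) ^ (M * n + 1) * (C3 : ℝ) ^ σ * (m + 1) *
          (C1 : ℝ) ^ (L * σ)) := by
          gcongr
      _ = _ := by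
          rw [mul_pow, mul_pow, mul_pow, mul_pow, mul_pow, ← pow_mul, ← pow_mul, ← pow_mul,
            pow_add (N : ℝ) ((C2 + C3) * (M * n + 1)) m, add_mul, pow_add (N : ℝ)]
          ring
  have hfin : (((C2 : ℝ) * (N : ℝ) ^ C2) ^ (k + 1) * ((N : ℝ) ^ m * (C1 : ℝ) ^ σ)) *
      (S * ((C3 : ℝ) * (N : ℝ) ^ C3) ^ (k + 1) * (C3 : ℝ) ^ σ * (m + 1) * (C1 : ℝ) ^ (L * σ)) <
      (N : ℝ) ^ σ := by
    refine lt_of_le_of_lt hstep ?_
    have h1 : S * (((C2 : ℝ) * C3) ^ (M * n + 1) * ((C1 : ℝ) * C3 * (C1 : ℝ) ^ L) ^ σ * (m + 1)) *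
        (N : ℝ) ^ ((C2 + C3) * (M * n + 1) + m) ≤
        S * (D : ℝ) ^ n * (N : ℝ) ^ ((C2 + C3) * (M * n + 1) + m) := by
      gcongr
    refine lt_of_le_of_lt h1 ?_
    have h2 : S * (D : ℝ) ^ n < (N : ℝ) ^ (n + 1) := by
      have hDp : (0 : ℝ) < (D : ℝ) ^ n := by
        have : (0 : ℝ) < D := by exact_mod_cast hD1
        positivity
      have h3 : S * (D : ℝ) ^ n < 2 ^ n * (D : ℝ) ^ n := by
        exact mul_lt_mul_of_pos_right hS2 hDp
      have h4 : (N : ℝ) ^ n ≤ (N : ℝ) ^ (n + 1) := pow_le_pow_right₀ hNr (Nat.le_succ _)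
      calc S * (D : ℝ) ^ n < 2 ^ n * (D : ℝ) ^ n := h3
        _ = (D : ℝ) ^ n * 2 ^ n := mul_comm _ _
        _ ≤ (N : ℝ) ^ n := hDN
        _ ≤ _ := h4
    calc S * (D : ℝ) ^ n * (N : ℝ) ^ ((C2 + C3) * (M * n + 1) + m)
        < (N : ℝ) ^ (n + 1) * (N : ℝ) ^ ((C2 + C3) * (M * n + 1) + m) :=
          mul_lt_mul_of_pos_right h2 (by positivity)
      _ = (N : ℝ) ^ ((C2 + C3) * (M * n + 1) + m + (n + 1)) := by
          rw [← pow_add]; congr 1; ring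
      _ ≤ (N : ℝ) ^ σ := hNσ
  rw [← mul_div_assoc, div_lt_one hσpos]
  exact hfin

theorem dd_one (g : PowerSeries ℚ) : dd 1 g = dX g := by
  ext n
  rw [dd, dX, PowerSeries.coeff_mk, PowerSeries.coeff_derivative, Nat.choose_one_right]
  push_cast
  ring

end GF_

open GF_ in
theorem p_GF (h1 : T_SIEG) (h2 : T_REC) (h3 : T_ZE) (h4 : T_DEN) (h5 : T_AN) : T_GF := by
  intro ι _ _ o T f hT hG hI ho
  obtain ⟨hgt, G, hGM, hder, hnil⟩ := hG
  have hrec := h2 ι T f G hI hder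
  have hsol : Sol T (G 1) f := by
    intro i
    have := hder 1 i
    rwa [pow_one, dd_one] at this
  rcases Nat.lt_or_ge (Fintype.card ι) 2 with hM | hM
  · -- one function only
    refine ⟨1, fun N hN c hc => ?_⟩
    have hsub : Subsingleton ι := Fintype.card_le_one_iff_subsingleton.mp (by omega)
    have hone : vl (1 : PowerSeries ℚ) (1 / (N : ℝ)) = 1 := by
      rw [vl, tsum_eq_single 0]
      · simp
      · intro n hn
        rw [PowerSeries.coeff_one, if_neg hn]; simp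
    have huniv : (Finset.univ : Finset ι) = {o} := by
      ext i; simp [Subsingleton.elim i o]
    rw [huniv, Finset.sum_singleton, ho, hone, mul_one] at hc
    funext i
    rw [Subsingleton.elim i o]
    exact_mod_cast hc
  obtain ⟨C1, hC1, hS⟩ := h1 ι o f hgt ho hM
  obtain ⟨C2, N2, hC2, hDen⟩ := h4 ι T G hT hGM
  obtain ⟨C3, N3, hC3, hAn⟩ := h5 ι o T f G hT hgt hGM hrec hsol
  set M := Fintype.card ι with hMdef
  set L : ℕ := 2 * (C2 + C3) * M + 2 with hL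
  obtain ⟨cT, hcT1, hcT2⟩ : ∃ c, T.natDegree ≤ c + 1 ∧ ∀ i j, (G 1 i j).natDegree ≤ c := by
    refine ⟨T.natDegree + ∑ i, ∑ j, (G 1 i j).natDegree, by omega, fun i j => ?_⟩
    have a1 : (G 1 i j).natDegree ≤ ∑ j, (G 1 i j).natDegree :=
      Finset.single_le_sum (f := fun j => (G 1 i j).natDegree) (fun _ _ => Nat.zero_le _)
        (Finset.mem_univ j)
    have a2 : ∑ j, (G 1 i j).natDegree ≤ ∑ i, ∑ j, (G 1 i j).natDegree :=
      Finset.single_le_sum (f := fun i => ∑ j, (G 1 i j).natDegree) (fun _ _ => Nat.zero_le _)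
        (Finset.mem_univ i)
    omega
  refine ⟨max (max N2 N3) (max 2 (2 * ((C2 * C3) ^ (M + 1) *
    (C1 * C3 * C1 ^ L) ^ (M * L + 1) * 2 ^ (M * L)))), fun N hN c hc => ?_⟩
  by_contra hc0
  have hNa : N2 ≤ N := le_trans (le_trans (le_max_left _ _) (le_max_left _ _)) hN
  have hNb : N3 ≤ N := le_trans (le_trans (le_max_right _ _) (le_max_left _ _)) hN
  have hNc : 2 ≤ N := le_trans (le_trans (le_max_left _ _) (le_max_right _ _)) hN
  have hNd := le_trans (le_trans (le_max_right _ _) (le_max_right _ _)) hN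
  set S : ℝ := ∑ i, |(c i : ℝ)| with hSdef
  have hS0 : 0 ≤ S := Finset.sum_nonneg fun _ _ => abs_nonneg _
  -- choice of n
  obtain ⟨n1, hn1⟩ : ∃ n1 : ℕ, S < 2 ^ n1 := pow_unbounded_of_one_lt S (by norm_num)
  set n : ℕ := n1 + cT * M ^ 2 + 1 with hn
  have hSn : S < 2 ^ n := lt_of_lt_of_le hn1 (pow_le_pow_right₀ (by norm_num) (by omega))
  obtain ⟨P, hP, hPb, d, hd0, hdle, hPd⟩ := hS L n ((M - 1) * L * n)
    ((M - 1) * L * n + 1 + (L - 1) * n) (by omega) (by omega) rfl rfl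
  set m := (M - 1) * L * n with hm
  set σ := m + 1 + (L - 1) * n with hσ
  have hmσ : m < σ := by omega
  have hzero : ∀ k, k ≤ M * n → ∑ i, (c i : ℚ) * pk T G (1 / (N : ℚ)) P k i = 0 := by
    intro k hk
    obtain ⟨-, e, he0, hele, heint⟩ := hDen N m d k hNa hd0 P hP.deg hPd
    have hA := hAn N m σ k ((C1 : ℝ) ^ (L * σ)) P c hNb hP hmσ ?_ hc
    · have hkey := key C1 C2 C3 M L n k m σ N S hC1 hC2 hC3 (by omega) (by omega) hL hm hσ hk hS0
        hSn hNd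
      choose x hx using heint
      have hint : ((∑ i, c i * x i : ℤ) : ℝ) =
          (e : ℝ) * ∑ i, (c i : ℝ) * ((pk T G (1 / (N : ℚ)) P k i : ℚ) : ℝ) := by
        push_cast
        rw [Finset.mul_sum]
        refine Finset.sum_congr rfl fun i _ => ?_
        have := congrArg (fun q : ℚ => (q : ℝ)) (hx i)
        push_cast at this
        rw [← this]; ring
      have habs : |((∑ i, c i * x i : ℤ) : ℝ)| < 1 := by
        rw [hint, abs_mul]
        have he : |(e : ℝ)| ≤ ((C2 : ℝ) * (N : ℝ) ^ C2) ^ (k + 1) * ((N : ℝ) ^ m * (C1 : ℝ) ^ σ) := by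
          rw [abs_of_nonneg (by positivity)]
          have h1 : (e : ℝ) ≤ (((C2 * N ^ C2) ^ (k + 1) * (N ^ m * d) : ℕ) : ℝ) := by
            exact_mod_cast hele
          refine h1.trans ?_
          push_cast
          have h2 : (d : ℝ) ≤ (C1 : ℝ) ^ σ := by exact_mod_cast hdle
          gcongr
        refine lt_of_le_of_lt (mul_le_mul he hA (abs_nonneg _) (by positivity)) ?_
        exact hkey
      have hz : (∑ i, c i * x i : ℤ) = 0 := by
        rw [← Int.cast_abs] at habs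
        have : |∑ i, c i * x i| < 1 := by exact_mod_cast habs
        exact Int.abs_lt_one_iff.mp this
      have heq : (e : ℚ) * ∑ i, (c i : ℚ) * pk T G (1 / (N : ℚ)) P k i = 0 := by
        have h1 : (e : ℚ) * ∑ i, (c i : ℚ) * pk T G (1 / (N : ℚ)) P k i =
            ((∑ i, c i * x i : ℤ) : ℚ) := by
          push_cast
          rw [Finset.mul_sum]
          refine Finset.sum_congr rfl fun i _ => ?_
          rw [← hx i]; ring
        rw [h1, hz]; simp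
      rcases mul_eq_zero.mp heq with h | h
      · exfalso
        have : e = 0 := by exact_mod_cast h
        omega
      · exact h
    · intro s
      have := hPb s
      have h2 := (Rat.cast_le (K := ℝ)).mpr this
      push_cast at h2
      exact h2
  have hNz : (1 / (N : ℚ)) ≠ 0 := by
    have : (N : ℚ) ≠ 0 := by
      have : N ≠ 0 := by omega
      exact_mod_cast this
    exact one_div_ne_zero this
  have hlam : (fun i => (c i : ℚ)) ≠ 0 := by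
    intro h
    apply hc0
    funext i
    have := congrFun h i
    simpa using this
  have hev := (hDen N m d 0 hNa hd0 P hP.deg hPd).1
  have hz := h3 ι o T f G m σ cT (M * n) (1 / (N : ℚ)) P (fun i => (c i : ℚ)) hT hsol hrec hI hnil
    ho hP hmσ hcT1 hcT2 hNz hev hlam hzero
  rw [← hMdef] at hz
  -- contradiction
  obtain ⟨M', hM'⟩ : ∃ M', M = M' + 2 := ⟨M - 2, by omega⟩
  obtain ⟨L', hL'⟩ : ∃ L', L = L' + 1 := ⟨L - 1, by omega⟩
  have e1 : M - 1 = M' + 1 := by omega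
  have e2 : L - 1 = L' := by omega
  have e3 : M * n + 1 - (M - 1) + (M' + 1) = M * n + 1 := by
    have : M ≤ M * n := Nat.le_mul_of_pos_right _ (by omega)
    omega
  have hm2 : m = (M' + 1) * (L' + 1) * n := by rw [hm, e1, hL']
  have hσ2 : σ = m + 1 + L' * n := by rw [hσ, e2]
  have hz2 : (M' + 1) * σ + (M * n + 1 - (M - 1)) ≤ M * m + cT * M ^ 2 := by
    rw [← e1]; exact hz
  have h7 : (M' + 1) * σ + (M * n + 1) ≤ M * m + cT * M ^ 2 + (M' + 1) := by omega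
  have h8 : (M' + 1) * σ = (M' + 1) * m + (M' + 1) + (M' + 1) * L' * n := by rw [hσ2]; ring
  have h9 : M * m = (M' + 1) * m + m := by rw [hM']; ring
  have h10 : m = (M' + 1) * L' * n + (M' + 1) * n := by rw [hm2]; ring
  have h11 : M * n = (M' + 1) * n + n := by rw [hM']; ring
  have h12 : n + 1 ≤ cT * M ^ 2 := by
    rw [h8, h9, h11] at h7
    generalize (M' + 1) * m = u at h7
    generalize (M' + 1) * L' * n = w at h7 h10
    generalize (M' + 1) * n = w2 at h7 h10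
    omega
  omega

end Pool.Agent.Leg
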