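import Pool.Agent.Leg.Targets

set_option autoImplicit false

/-! A2 closure properties of `GT2` -/

namespace Pool.Agent.Leg

open Finset Filter Topology
open scoped BigOperators

namespace GT2_

theorem one_le_of {C S d : ℕ} (h0 : 0 < d) (h : d ≤ C ^ (S + 1)) : 1 ≤ C := by
  rcases Nat.eq_zero_or_pos C with h1 | h1
  · rw [h1, zero_pow (by omega)] at h
    omega
  · exact h1

theorem GT2_one_le {C : ℕ} {w : ℕ → PowerSeries ℚ}
    (h : ∀ S, (∀ s n, s + n ≤ S → |PowerSeries.coeff s (w n)| ≤ (C : ℚ) ^ (S + 1)) ∧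
      ∃ d : ℕ, 0 < d ∧ d ≤ C ^ (S + 1) ∧ ∀ s n, s + n ≤ S →
        ∃ x : ℤ, (d : ℚ) * PowerSeries.coeff s (w n) = x) : 1 ≤ C := by
  obtain ⟨-, d, h0, h1, -⟩ := h 0
  exact one_le_of h0 h1

theorem lcm_bound (n : ℕ) : Nat.lcmUpto n ≤ 220 ^ n := by
  have h1 := Chebyshev.psi_le_const_mul_self (x := (n : ℝ)) (by positivity)
  rw [Chebyshev.psi_eq_log_lcmUpto] at h1
  have hpos : (0 : ℝ) < Nat.lcmUpto n := by exact_mod_cast Nat.lcmUpto_pos n
  have h2 : (Nat.lcmUpto n : ℝ) ≤ Real.exp ((Real.log 4 + 4) * n) := by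
    rw [← Real.log_le_iff_le_exp hpos]
    exact h1
  have h3 : Real.exp ((Real.log 4 + 4) * n) = (4 * Real.exp 4) ^ n := by
    rw [mul_comm, Real.exp_nat_mul, Real.exp_add, Real.exp_log (by norm_num)]
  have h4 : Real.exp 4 ≤ 55 := by
    have h5 := Real.exp_one_lt_d9
    have h6 : Real.exp 4 = Real.exp 1 ^ 4 := by
      rw [← Real.exp_nat_mul]; norm_num
    rw [h6]
    calc Real.exp 1 ^ 4 ≤ (2.7182818286 : ℝ) ^ 4 :=
          pow_le_pow_left₀ (Real.exp_pos _).le h5.le 4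
      _ ≤ 55 := by norm_num
  have h5 : (Nat.lcmUpto n : ℝ) ≤ (220 : ℝ) ^ n := by
    rw [h3] at h2
    refine h2.trans (pow_le_pow_left₀ (by positivity) ?_ n)
    linarith
  exact_mod_cast h5

theorem add {u v : ℕ → PowerSeries ℚ} (hu : GT2 u) (hv : GT2 v) : GT2 (fun n => u n + v n) := by
  obtain ⟨A, hA⟩ := hu
  obtain ⟨B, hB⟩ := hv
  have hA1 := GT2_one_le hA
  have hB1 := GT2_one_le hB
  have hA2 : (1 : ℚ) ≤ A := by exact_mod_cast hA1
  have hB2 : (1 : ℚ) ≤ B := by exact_mod_cast hB1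
  refine ⟨2 * A * B, fun S => ?_⟩
  obtain ⟨a1, d, d0, d1, d2⟩ := hA S
  obtain ⟨b1, e, e0, e1, e2⟩ := hB S
  refine ⟨fun s n h => ?_, d * e, Nat.mul_pos d0 e0, ?_, fun s n h => ?_⟩
  · rw [map_add]
    have h1 : (1 : ℚ) ≤ (A : ℚ) ^ (S + 1) := one_le_pow₀ hA2
    have h2 : (1 : ℚ) ≤ (B : ℚ) ^ (S + 1) := one_le_pow₀ hB2
    have h3 : (2 : ℚ) ≤ 2 ^ (S + 1) := by
      calc (2 : ℚ) = 2 ^ 1 := by norm_num
        _ ≤ 2 ^ (S + 1) := pow_le_pow_right₀ (by norm_num) (by omega)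
    calc |PowerSeries.coeff s (u n) + PowerSeries.coeff s (v n)|
        ≤ |PowerSeries.coeff s (u n)| + |PowerSeries.coeff s (v n)| := abs_add_le _ _
      _ ≤ (A : ℚ) ^ (S + 1) + (B : ℚ) ^ (S + 1) := add_le_add (a1 s n h) (b1 s n h)
      _ ≤ 2 * ((A : ℚ) ^ (S + 1) * (B : ℚ) ^ (S + 1)) := by nlinarith
      _ ≤ 2 ^ (S + 1) * ((A : ℚ) ^ (S + 1) * (B : ℚ) ^ (S + 1)) := by
          refine mul_le_mul_of_nonneg_right h3 (by positivity)
      _ = ((2 * A * B : ℕ) : ℚ) ^ (S + 1) := by push_cast; rw [mul_pow, mul_pow]; ring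
  · calc d * e ≤ A ^ (S + 1) * B ^ (S + 1) := Nat.mul_le_mul d1 e1
      _ = (A * B) ^ (S + 1) := by rw [mul_pow]
      _ ≤ (2 * A * B) ^ (S + 1) := Nat.pow_le_pow_left (by nlinarith) _
  · obtain ⟨x, hx⟩ := d2 s n h
    obtain ⟨y, hy⟩ := e2 s n h
    refine ⟨e * x + d * y, ?_⟩
    push_cast
    rw [map_add, ← hx, ← hy]
    ring

theorem conv {u v : ℕ → PowerSeries ℚ} (hu : GT2 u) (hv : GT2 v) :
    GT2 (fun n => ∑ p ∈ antidiagonal n, u p.1 * v p.2) := by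
  obtain ⟨A, hA⟩ := hu
  obtain ⟨B, hB⟩ := hv
  have hA1 := GT2_one_le hA
  have hB1 := GT2_one_le hB
  refine ⟨4 * A * B, fun S => ?_⟩
  obtain ⟨a1, d, d0, d1, d2⟩ := hA S
  obtain ⟨b1, e, e0, e1, e2⟩ := hB S
  have hco : ∀ s n, PowerSeries.coeff s (∑ p ∈ antidiagonal n, u p.1 * v p.2) =
      ∑ p ∈ antidiagonal n, ∑ q ∈ antidiagonal s,
        PowerSeries.coeff q.1 (u p.1) * PowerSeries.coeff q.2 (v p.2) := by
    intro s n
    rw [map_sum]
    refine Finset.sum_congr rfl fun p _ => ?_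
    rw [PowerSeries.coeff_mul]
  refine ⟨fun s n h => ?_, d * e, Nat.mul_pos d0 e0, ?_, fun s n h => ?_⟩
  · rw [hco]
    have hb : ∀ p ∈ antidiagonal n, ∀ q ∈ antidiagonal s,
        |PowerSeries.coeff q.1 (u p.1) * PowerSeries.coeff q.2 (v p.2)| ≤
          (A : ℚ) ^ (S + 1) * (B : ℚ) ^ (S + 1) := by
      intro p hp q hq
      rw [HasAntidiagonal.mem_antidiagonal] at hp hq
      rw [abs_mul]
      exact mul_le_mul (a1 _ _ (by omega)) (b1 _ _ (by omega)) (abs_nonneg _) (by positivity)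
    have hS : ∀ m : ℕ, m ≤ S → ((m : ℚ) + 1) ≤ 2 ^ (S + 1) := by
      intro m hm
      have h1 : m + 1 < 2 ^ (m + 1) := Nat.lt_two_pow_self
      have h2 : 2 ^ (m + 1) ≤ 2 ^ (S + 1) := Nat.pow_le_pow_right (by norm_num) (by omega)
      exact_mod_cast (h1.le.trans h2)
    calc |∑ p ∈ antidiagonal n, ∑ q ∈ antidiagonal s,
          PowerSeries.coeff q.1 (u p.1) * PowerSeries.coeff q.2 (v p.2)|
        ≤ ∑ p ∈ antidiagonal n, ∑ q ∈ antidiagonal s,
          |PowerSeries.coeff q.1 (u p.1) * PowerSeries.coeff q.2 (v p.2)| :=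
          (abs_sum_le_sum_abs _ _).trans (sum_le_sum fun p _ => abs_sum_le_sum_abs _ _)
      _ ≤ ∑ p ∈ antidiagonal n, ∑ q ∈ antidiagonal s, (A : ℚ) ^ (S + 1) * (B : ℚ) ^ (S + 1) :=
          sum_le_sum fun p hp => sum_le_sum fun q hq => hb p hp q hq
      _ = ((n : ℚ) + 1) * (((s : ℚ) + 1) * ((A : ℚ) ^ (S + 1) * (B : ℚ) ^ (S + 1))) := by
          rw [sum_const, sum_const, Nat.card_antidiagonal, Nat.card_antidiagonal]
          simp only [nsmul_eq_mul]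
          push_cast
          ring
      _ ≤ 2 ^ (S + 1) * (2 ^ (S + 1) * ((A : ℚ) ^ (S + 1) * (B : ℚ) ^ (S + 1))) := by
          refine mul_le_mul (hS n (by omega)) (mul_le_mul_of_nonneg_right (hS s (by omega))
            (by positivity)) (by positivity) (by positivity)
      _ = ((4 * A * B : ℕ) : ℚ) ^ (S + 1) := by
          push_cast
          rw [mul_pow, mul_pow, show (4 : ℚ) = 2 * 2 by norm_num, mul_pow]
          ring
  · calc d * e ≤ A ^ (S + 1) * B ^ (S + 1) := Nat.mul_le_mul d1 e1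
      _ = (A * B) ^ (S + 1) := by rw [mul_pow]
      _ ≤ (4 * A * B) ^ (S + 1) := Nat.pow_le_pow_left (by nlinarith) _
  · rw [hco]
    choose! x hx using d2
    choose! y hy using e2
    refine ⟨∑ p ∈ antidiagonal n, ∑ q ∈ antidiagonal s, x q.1 p.1 * y q.2 p.2, ?_⟩
    push_cast
    rw [mul_sum]
    refine Finset.sum_congr rfl fun p hp => ?_
    rw [mul_sum]
    refine Finset.sum_congr rfl fun q hq => ?_
    rw [HasAntidiagonal.mem_antidiagonal] at hp hq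
    rw [← hx q.1 p.1 (by omega), ← hy q.2 p.2 (by omega)]
    ring

theorem GT_one_le {C : ℕ} {g : PowerSeries ℚ} (h : ∀ n, |PowerSeries.coeff n g| ≤ (C : ℚ) ^ (n + 1) ∧
    ∃ d : ℕ, 0 < d ∧ d ≤ C ^ (n + 1) ∧ ∀ m ≤ n, ∃ x : ℤ, (d : ℚ) * PowerSeries.coeff m g = x) :
    1 ≤ C := by
  obtain ⟨-, d, h0, h1, -⟩ := h 0
  exact one_le_of h0 h1

theorem th_ {g : PowerSeries ℚ} (hg : GT g) : GT2 (fun n => th n g) := by
  obtain ⟨C, hC⟩ := hg
  have hC1 := GT_one_le hC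
  have hC2 : (1 : ℚ) ≤ C := by exact_mod_cast hC1
  refine ⟨2 * C, fun S => ?_⟩
  obtain ⟨-, d, d0, d1, d2⟩ := hC S
  refine ⟨fun s n h => ?_, d, d0, ?_, fun s n h => ?_⟩
  · dsimp only
    rw [th, PowerSeries.coeff_mk, abs_mul, Nat.abs_cast]
    have h1 : (s.choose n : ℚ) ≤ 2 ^ (S + 1) := by
      have h2 : s.choose n ≤ 2 ^ s := Nat.choose_le_two_pow s n
      have h3 : 2 ^ s ≤ 2 ^ (S + 1) := Nat.pow_le_pow_right (by norm_num) (by omega)
      exact_mod_cast h2.trans h3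
    have h2 : |PowerSeries.coeff s g| ≤ (C : ℚ) ^ (S + 1) :=
      (hC s).1.trans (pow_le_pow_right₀ hC2 (by omega))
    calc (s.choose n : ℚ) * |PowerSeries.coeff s g| ≤ 2 ^ (S + 1) * (C : ℚ) ^ (S + 1) :=
          mul_le_mul h1 h2 (abs_nonneg _) (by positivity)
      _ = ((2 * C : ℕ) : ℚ) ^ (S + 1) := by push_cast; rw [mul_pow]
  · exact d1.trans (Nat.pow_le_pow_left (by omega) _)
  · obtain ⟨x, hx⟩ := d2 s (by omega)
    refine ⟨s.choose n * x, ?_⟩
    dsimp only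
    rw [th, PowerSeries.coeff_mk]
    push_cast
    rw [← hx]
    ring

theorem zero_ {g : PowerSeries ℚ} (hg : GT g) : GT2 (fun n => if n = 0 then g else 0) := by
  obtain ⟨C, hC⟩ := hg
  have hC1 := GT_one_le hC
  have hC2 : (1 : ℚ) ≤ C := by exact_mod_cast hC1
  refine ⟨C, fun S => ?_⟩
  obtain ⟨-, d, d0, d1, d2⟩ := hC S
  refine ⟨fun s n h => ?_, d, d0, d1, fun s n h => ?_⟩
  · dsimp only
    by_cases hn : n = 0
    · rw [if_pos hn]
      exact (hC s).1.trans (pow_le_pow_right₀ hC2 (by omega))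
    · rw [if_neg hn]
      simp only [map_zero, abs_zero]
      positivity
  · dsimp only
    by_cases hn : n = 0
    · rw [if_pos hn]
      exact d2 s (by omega)
    · rw [if_neg hn]
      exact ⟨0, by simp⟩

theorem log_ : GT2 (fun n => PowerSeries.C ((-1 : ℚ) ^ n / n)) := by
  refine ⟨220, fun S => ⟨fun s n h => ?_, Nat.lcmUpto S, Nat.lcmUpto_pos S,
    (lcm_bound S).trans (Nat.pow_le_pow_right (by norm_num) (by omega)), fun s n h => ?_⟩⟩
  · rw [PowerSeries.coeff_C]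
    have h1 : (1 : ℚ) ≤ ((220 : ℕ) : ℚ) ^ (S + 1) := one_le_pow₀ (by norm_num)
    refine le_trans ?_ h1
    split_ifs
    · rw [abs_div, abs_pow, abs_neg, abs_one, one_pow, Nat.abs_cast]
      rcases Nat.eq_zero_or_pos n with hn | hn
      · rw [hn]; simp
      · rw [div_le_one (by exact_mod_cast hn)]
        exact_mod_cast hn
    · simp
  · rw [PowerSeries.coeff_C]
    split_ifs
    · rcases Nat.eq_zero_or_pos n with hn | hn
      · exact ⟨0, by rw [hn]; simp⟩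
      · have hdvd : n ∣ Nat.lcmUpto S := by
          unfold Nat.lcmUpto
          exact Finset.dvd_lcm (f := id) (Finset.mem_Icc.2 ⟨hn, by omega⟩)
        obtain ⟨k, hk⟩ := hdvd
        refine ⟨k * (-1) ^ n, ?_⟩
        have hn0 : (n : ℚ) ≠ 0 := by exact_mod_cast hn.ne'
        rw [hk]
        push_cast
        field_simp
    · exact ⟨0, by simp⟩

end GT2_

theorem p_GT2 : T_GT2 :=
  ⟨fun _ _ hu hv => GT2_.add hu hv, fun _ _ hu hv => GT2_.conv hu hv, fun _ hg => GT2_.th_ hg,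
    fun _ hg => GT2_.zero_ hg, GT2_.log_⟩

end Pool.Agent.Leg
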