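import Pool.Agent.Leg.Targets

set_option autoImplicit false

/-!
# Independence of the logarithms (job LOGS, MP_5d33ca_ag)
-/

namespace Pool.Agent.Leg

open Finset Filter Topology
open scoped BigOperators

namespace LOGS_

/-! ## The upper half plane -/

theorem isOpen_UH : IsOpen UH := isOpen_lt continuous_const Complex.continuous_im

theorem neBot_UH {s : ℂ} (hs : s.im = 0) : (𝓝[UH] s).NeBot := by
  rw [← mem_closure_iff_nhdsWithin_neBot]
  have h : closure UH = {z : ℂ | 0 ≤ z.im} := Complex.closure_setOfPred_lt_im 0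
  rw [h]
  exact hs.ge

theorem infinite_UH : UH.Infinite := by
  refine Set.infinite_of_injective_forall_mem (f := fun n : ℕ => (n : ℂ) + Complex.I) ?_ ?_
  · intro m n h
    have := congrArg Complex.re h
    simpa using this
  · intro n
    change 0 < ((n : ℂ) + Complex.I).im
    simp

theorem im_lin {a : ℕ} (ha : 1 ≤ a) {z : ℂ} (hz : z ∈ UH) : 0 < (1 + (a : ℂ) * z).im := by
  have hz' : 0 < z.im := hz
  have : (1 + (a : ℂ) * z).im = a * z.im := by simp
  rw [this]
  have ha' : (0 : ℝ) < a := by exact_mod_cast ha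
  positivity

theorem log_neg_UH {w : ℂ} (hw : 0 < w.im) : Complex.log w = Complex.log (-w) + Real.pi * Complex.I := by
  rw [Complex.log, Complex.log, Complex.arg_neg_eq_arg_sub_pi_of_im_pos hw, norm_neg]
  push_cast
  ring

/-! ## The logarithm -/

theorem tendsto_real (k : ℕ) :
    Tendsto (fun x : ℝ => x * (Real.pi - Real.log x) ^ k) (𝓝[>] 0) (𝓝 0) := by
  have h1 : Tendsto (fun x : ℝ => Real.pi - Real.log x) (𝓝[>] 0) atTop := by
    have := Real.tendsto_log_nhdsGT_zero
    exact tendsto_const_nhds.add_atTop (tendsto_neg_atBot_atTop.comp this)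
  have h2 := (Real.tendsto_pow_mul_exp_neg_atTop_nhds_zero k).comp h1
  have h3 := h2.const_mul (Real.exp Real.pi)
  rw [mul_zero] at h3
  refine h3.congr' ?_
  filter_upwards [self_mem_nhdsWithin] with x hx
  have hx' : 0 < x := hx
  simp only [Function.comp]
  rw [neg_sub, Real.exp_sub, Real.exp_log hx']
  have : Real.exp Real.pi ≠ 0 := (Real.exp_pos _).ne'
  field_simp

theorem Lk_log {a : ℕ} (ha : 1 ≤ a) : Lk (-1 / (a : ℂ)) (fun z => Complex.log (1 + (a : ℂ) * z)) := by
  have ha0 : (a : ℂ) ≠ 0 := by exact_mod_cast (by omega : a ≠ 0)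
  have hw : Tendsto (fun z : ℂ => ‖1 + (a : ℂ) * z‖) (𝓝[UH] (-1 / (a : ℂ))) (𝓝[>] 0) := by
    rw [tendsto_nhdsWithin_iff]
    constructor
    · have hc : Continuous (fun z : ℂ => ‖1 + (a : ℂ) * z‖) := by fun_prop
      have := hc.tendsto (-1 / (a : ℂ))
      have e : ‖1 + (a : ℂ) * (-1 / (a : ℂ))‖ = 0 := by
        rw [norm_eq_zero]
        field_simp
        ring
      rw [e] at this
      exact this.mono_left nhdsWithin_le_nhds
    · filter_upwards [self_mem_nhdsWithin] with z hz
      have h1 := im_lin ha hz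
      have h2 : (1 + (a : ℂ) * z) ≠ 0 := by
        intro h
        rw [h] at h1
        simp at h1
      exact norm_pos_iff.mpr h2
  constructor
  · have h1 : Tendsto (fun z : ℂ => -Real.log ‖1 + (a : ℂ) * z‖) (𝓝[UH] (-1 / (a : ℂ))) atTop :=
      tendsto_neg_atBot_atTop.comp (Real.tendsto_log_nhdsGT_zero.comp hw)
    refine tendsto_atTop_mono (fun z => ?_) h1
    calc -Real.log ‖1 + (a : ℂ) * z‖ ≤ |Real.log ‖1 + (a : ℂ) * z‖| := neg_le_abs _
      _ = |(Complex.log (1 + (a : ℂ) * z)).re| := by rw [Complex.log_re]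
      _ ≤ _ := Complex.abs_re_le_norm _
  · intro k
    have h1 := (tendsto_real k).comp hw
    rw [tendsto_zero_iff_norm_tendsto_zero]
    refine tendsto_of_tendsto_of_tendsto_of_le_of_le' tendsto_const_nhds h1
      (Eventually.of_forall fun z => norm_nonneg _) ?_
    have hev : ∀ᶠ z in 𝓝[UH] (-1 / (a : ℂ)), ‖1 + (a : ℂ) * z‖ ≤ 1 := by
      have : ∀ᶠ x : ℝ in 𝓝[>] 0, x ≤ 1 := by
        refine eventually_nhdsWithin_of_eventually_nhds ?_
        exact (eventually_lt_nhds (by norm_num : (0 : ℝ) < 1)).mono fun x hx => hx.le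
      exact hw.eventually this
    filter_upwards [hev, self_mem_nhdsWithin] with z hz1 hz
    simp only [Function.comp]
    rw [norm_mul, norm_pow]
    have e1 : ‖z - -1 / (a : ℂ)‖ ≤ ‖1 + (a : ℂ) * z‖ := by
      have : (1 + (a : ℂ) * z) = a * (z - -1 / (a : ℂ)) := by field_simp; ring
      rw [this, norm_mul, Complex.norm_natCast]
      have h2 : (1 : ℝ) ≤ a := by exact_mod_cast ha
      nlinarith [norm_nonneg (z - -1 / (a : ℂ))]
    have hpos : 0 < ‖1 + (a : ℂ) * z‖ := by
      have h1 := im_lin ha hz
      refine norm_pos_iff.mpr fun h => ?_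
      rw [h] at h1
      simp at h1
    have e2 : ‖Complex.log (1 + (a : ℂ) * z)‖ ≤ Real.pi - Real.log ‖1 + (a : ℂ) * z‖ := by
      have h3 := Complex.norm_le_abs_re_add_abs_im (Complex.log (1 + (a : ℂ) * z))
      rw [Complex.log_re, Complex.log_im] at h3
      have h4 := Complex.abs_arg_le_pi (1 + (a : ℂ) * z)
      have h5 : Real.log ‖1 + (a : ℂ) * z‖ ≤ 0 := Real.log_nonpos hpos.le hz1
      rw [abs_of_nonpos h5] at h3
      linarith
    exact mul_le_mul e1 (pow_le_pow_left₀ (norm_nonneg _) e2 k) (by positivity) hpos.le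

/-! ## The values and the polynomial in the large logarithm -/

variable {r : ℕ}

/-- the values -/
noncomputable def vs (a : Fin r → ℕ) (z : ℂ) : Fin r ⊕ Unit → ℂ :=
  Sum.elim (fun i => Complex.log (1 + a i * z)) (fun _ => z)

/-- `P` vanishes -/
def Vn (a : Fin r → ℕ) (P : MvPolynomial (Fin r ⊕ Unit) ℂ) : Prop :=
  ∀ z ∈ UH, MvPolynomial.aeval (vs a z) P = 0

theorem analytic_vs (a : Fin r → ℕ) (ha : ∀ i, 1 ≤ a i) (P : MvPolynomial (Fin r ⊕ Unit) ℂ) :
    AnalyticOnNhd ℂ (fun z => MvPolynomial.aeval (vs a z) P) UH := by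
  have hX : ∀ v, AnalyticOnNhd ℂ (fun z => vs a z v) UH := by
    intro v
    rcases v with i | _
    · intro z hz
      have h1 : AnalyticAt ℂ (fun z : ℂ => 1 + (a i : ℂ) * z) z := by fun_prop
      exact h1.clog (Or.inr (im_lin (ha i) hz).ne')
    · intro z _
      exact analyticAt_id
  induction P using MvPolynomial.induction_on with
  | C c =>
    simp only [MvPolynomial.aeval_C]
    exact analyticOnNhd_const
  | add p q hp hq =>
    simp only [map_add]
    exact hp.add hq
  | mul_X p v hp =>
    simp only [map_mul, MvPolynomial.aeval_X]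
    exact hp.mul (hX v)

open Classical in
/-- analytic branches near `-1/a_i` -/
noncomputable def br (a : Fin r → ℕ) (i j : Fin r) (z : ℂ) : ℂ :=
  if a j < a i then Complex.log (1 + a j * z)
  else Complex.log (-(1 + a j * z)) + Real.pi * Complex.I

theorem br_eq (a : Fin r → ℕ) (ha : ∀ i, 1 ≤ a i) (i j : Fin r) {z : ℂ} (hz : z ∈ UH) :
    br a i j z = Complex.log (1 + a j * z) := by
  unfold br
  split_ifs with h
  · rfl
  · exact (log_neg_UH (im_lin (ha j) hz)).symm

theorem br_analytic (a : Fin r → ℕ) (ha : ∀ i, 1 ≤ a i) (hinj : Function.Injective a)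
    {i j : Fin r} (hij : j ≠ i) : AnalyticAt ℂ (br a i j) (-1 / (a i : ℂ)) := by
  have hai : (0 : ℝ) < a i := by exact_mod_cast ha i
  have e : (1 + (a j : ℂ) * (-1 / (a i : ℂ))) = (((a i : ℝ) - a j) / a i : ℝ) := by
    have : (a i : ℂ) ≠ 0 := by exact_mod_cast hai.ne'
    push_cast
    field_simp
    ring
  by_cases h : a j < a i
  · have hf : br a i j = fun z => Complex.log (1 + a j * z) := by
      funext z
      unfold br
      rw [if_pos h]
    rw [hf]
    have h1 : AnalyticAt ℂ (fun z : ℂ => 1 + (a j : ℂ) * z) (-1 / (a i : ℂ)) := by fun_prop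
    refine h1.clog ?_
    rw [e]
    refine Or.inl ?_
    rw [Complex.ofReal_re]
    have : (a j : ℝ) < a i := by exact_mod_cast h
    exact div_pos (by linarith) hai
  · have hf : br a i j = fun z => Complex.log (-(1 + a j * z)) + Real.pi * Complex.I := by
      funext z
      unfold br
      rw [if_neg h]
    rw [hf]
    have h1 : AnalyticAt ℂ (fun z : ℂ => -(1 + (a j : ℂ) * z)) (-1 / (a i : ℂ)) := by fun_prop
    refine (h1.clog ?_).add analyticAt_const
    rw [e]
    refine Or.inl ?_
    rw [Complex.neg_re, Complex.ofReal_re]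
    have h2 : a j ≠ a i := fun h' => hij (hinj h')
    have : (a i : ℝ) < a j := by
      have : a i < a j := by omega
      exact_mod_cast this
    rw [← neg_div]
    exact div_pos (by linarith) hai

open Classical in
/-- the substitution of the branches, the `i`-th logarithm being the variable -/
noncomputable def ph (a : Fin r → ℕ) (i : Fin r) (z : ℂ) :
    MvPolynomial (Fin r ⊕ Unit) ℂ →ₐ[ℂ] Polynomial ℂ :=
  MvPolynomial.aeval (Sum.elim (fun j => if j = i then Polynomial.X else Polynomial.C (br a i j z))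
    (fun _ => Polynomial.C z))

theorem ph_eval (a : Fin r → ℕ) (ha : ∀ i, 1 ≤ a i) (i : Fin r) {z : ℂ} (hz : z ∈ UH)
    (P : MvPolynomial (Fin r ⊕ Unit) ℂ) :
    (ph a i z P).eval (Complex.log (1 + a i * z)) = MvPolynomial.aeval (vs a z) P := by
  induction P using MvPolynomial.induction_on with
  | C c => simp [ph, Polynomial.algebraMap_eq]
  | add p q hp hq => rw [map_add, Polynomial.eval_add, hp, hq, map_add]
  | mul_X p v hp =>
    rw [map_mul, Polynomial.eval_mul, hp, map_mul, MvPolynomial.aeval_X]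
    congr 1
    rcases v with j | _
    · simp only [ph, MvPolynomial.aeval_X, Sum.elim_inl, vs]
      split_ifs with h
      · rw [h, Polynomial.eval_X]
      · rw [Polynomial.eval_C, br_eq a ha i j hz]
    · simp [ph, vs]

theorem ph_deg (a : Fin r → ℕ) (i : Fin r) (P : MvPolynomial (Fin r ⊕ Unit) ℂ) :
    ∃ n, ∀ z, (ph a i z P).natDegree < n := by
  induction P using MvPolynomial.induction_on with
  | C c => exact ⟨1, fun z => by simp [ph, Polynomial.algebraMap_eq]⟩
  | add p q hp hq =>
    obtain ⟨m, hm⟩ := hp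
    obtain ⟨n, hn⟩ := hq
    refine ⟨max m n, fun z => ?_⟩
    rw [map_add]
    have h1 := Polynomial.natDegree_add_le (ph a i z p) (ph a i z q)
    have h2 := hm z
    have h3 := hn z
    exact lt_of_le_of_lt h1 (max_lt_max h2 h3)
  | mul_X p v hp =>
    obtain ⟨m, hm⟩ := hp
    refine ⟨m + 1, fun z => ?_⟩
    rw [map_mul]
    have h1 := Polynomial.natDegree_mul_le (p := ph a i z p) (q := ph a i z (MvPolynomial.X v))
    have h2 := hm z
    have h3 : (ph a i z (MvPolynomial.X v)).natDegree ≤ 1 := by
      rcases v with j | _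
      · simp only [ph, MvPolynomial.aeval_X, Sum.elim_inl]
        split_ifs with h
        · exact Polynomial.natDegree_X_le
        · rw [Polynomial.natDegree_C]; exact zero_le_one
      · simp [ph]
    omega

theorem ph_analytic (a : Fin r → ℕ) (ha : ∀ i, 1 ≤ a i) (hinj : Function.Injective a) (i : Fin r)
    (P : MvPolynomial (Fin r ⊕ Unit) ℂ) :
    ∀ k, AnalyticAt ℂ (fun z => (ph a i z P).coeff k) (-1 / (a i : ℂ)) := by
  induction P using MvPolynomial.induction_on with
  | C c =>
    intro k
    have : (fun z => (ph a i z (MvPolynomial.C c)).coeff k) =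
        fun _ => (Polynomial.C c : Polynomial ℂ).coeff k := by
      funext z
      simp [ph, Polynomial.algebraMap_eq]
    rw [this]
    exact analyticAt_const
  | add p q hp hq =>
    intro k
    simp only [map_add, Polynomial.coeff_add]
    exact (hp k).add (hq k)
  | mul_X p v hp =>
    intro k
    simp only [map_mul]
    rcases v with j | _
    · by_cases h : j = i
      · have e : ∀ z, ph a i z (MvPolynomial.X (Sum.inl j)) = Polynomial.X := fun z => by
          simp [ph, h]
        simp only [e]
        rcases k with _ | k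
        · simp only [Polynomial.mul_coeff_zero, Polynomial.coeff_X_zero, mul_zero]
          exact analyticAt_const
        · simp only [Polynomial.coeff_mul_X]
          exact hp k
      · have e : ∀ z, ph a i z (MvPolynomial.X (Sum.inl j)) = Polynomial.C (br a i j z) :=
          fun z => by simp [ph, h]
        simp only [e, Polynomial.coeff_mul_C]
        exact (hp k).mul (br_analytic a ha hinj h)
    · have e : ∀ z, ph a i z (MvPolynomial.X (Sum.inr ())) = Polynomial.C z := fun z => by
        simp [ph]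
      simp only [e, Polynomial.coeff_mul_C]
      exact (hp k).mul analyticAt_id

theorem ph_deriv (a : Fin r → ℕ) (i : Fin r) (z : ℂ) (P : MvPolynomial (Fin r ⊕ Unit) ℂ) :
    Polynomial.derivative (ph a i z P) = ph a i z (MvPolynomial.pderiv (Sum.inl i) P) := by
  induction P using MvPolynomial.induction_on with
  | C c => simp [ph, Polynomial.algebraMap_eq]
  | add p q hp hq => rw [map_add, map_add, hp, hq, map_add, map_add]
  | mul_X p v hp =>
    rw [map_mul, Polynomial.derivative_mul, hp, MvPolynomial.pderiv_mul, map_add, map_mul, map_mul]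
    congr 2
    rcases v with j | _
    · by_cases h : j = i
      · subst h
        rw [MvPolynomial.pderiv_X_self]
        simp [ph]
      · rw [MvPolynomial.pderiv_X_of_ne (fun h' => h (Sum.inl_injective h'))]
        simp [ph, h]
    · rw [MvPolynomial.pderiv_X_of_ne (by simp)]
      simp [ph]

/-- the derivative with respect to a logarithm -/
theorem Vn_pderiv (h : T_LOG) (a : Fin r → ℕ) (hinj : Function.Injective a) (ha : ∀ i, 1 ≤ a i)
    (i : Fin r) (P : MvPolynomial (Fin r ⊕ Unit) ℂ) (hP : Vn a P) :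
    Vn a (MvPolynomial.pderiv (Sum.inl i) P) := by
  obtain ⟨n, hn⟩ := ph_deg a i P
  have him : (-1 / (a i : ℂ)).im = 0 := by
    have : (-1 / (a i : ℂ)) = ((-1 / (a i : ℝ) : ℝ) : ℂ) := by push_cast; ring
    rw [this, Complex.ofReal_im]
  have h1 := h (-1 / (a i : ℂ)) (fun z => Complex.log (1 + (a i : ℂ) * z)) n
    (fun k z => (ph a i z P).coeff k) him (Lk_log (ha i)) (ph_analytic a ha hinj i P) (by
      filter_upwards [self_mem_nhdsWithin] with z hz
      rw [← Polynomial.eval_eq_sum_range' (hn z), ph_eval a ha i hz]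
      exact hP z hz)
  have h2 : ∀ᶠ z in 𝓝 (-1 / (a i : ℂ)), ph a i z P = 0 := by
    have h3 : ∀ᶠ z in 𝓝 (-1 / (a i : ℂ)), ∀ k ∈ range n, (ph a i z P).coeff k = 0 := by
      rw [Filter.eventually_all_finset]
      intro k hk
      exact h1 k (mem_range.mp hk)
    filter_upwards [h3] with z hz
    ext k
    rw [Polynomial.coeff_zero]
    by_cases hk : k < n
    · exact hz k (mem_range.mpr hk)
    · exact Polynomial.coeff_eq_zero_of_natDegree_lt (lt_of_lt_of_le (hn z) (not_lt.mp hk))
  have h4 : ∀ᶠ z in 𝓝[UH] (-1 / (a i : ℂ)),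
      MvPolynomial.aeval (vs a z) (MvPolynomial.pderiv (Sum.inl i) P) = 0 := by
    filter_upwards [self_mem_nhdsWithin, nhdsWithin_le_nhds h2] with z hz hz0
    rw [← ph_eval a ha i hz, ← ph_deriv, hz0]
    simp
  have hne := neBot_UH him
  obtain ⟨z0, hz0, hz1⟩ := ((eventually_eventually_nhdsWithin.mpr h4).and
    self_mem_nhdsWithin).exists
  rw [isOpen_UH.nhdsWithin_eq hz1] at hz0
  intro z hz
  have hpre : IsPreconnected UH := (convex_halfSpace_im_gt 0).isPreconnected
  exact (analytic_vs a ha _).eqOn_zero_of_preconnected_of_eventuallyEq_zero hpre hz1 hz0 hz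

theorem deg_pderiv (P : MvPolynomial (Fin r ⊕ Unit) ℂ) (i : Fin r)
    (h : MvPolynomial.pderiv (Sum.inl i) P ≠ 0) :
    (MvPolynomial.pderiv (Sum.inl i) P).totalDegree < P.totalDegree := by
  have key : ∀ m ∈ (MvPolynomial.pderiv (Sum.inl i) P).support,
      (m.sum fun _ e => e) + 1 ≤ P.totalDegree := by
    intro m hm
    rw [MvPolynomial.mem_support_iff, MvPolynomial.coeff_pderiv] at hm
    have h1 : m + Finsupp.single (Sum.inl i) 1 ∈ P.support := by
      rw [MvPolynomial.mem_support_iff]
      exact left_ne_zero_of_mul hm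
    have h2 := MvPolynomial.le_totalDegree h1
    rw [Finsupp.sum_add_index' (fun _ => rfl) (fun _ _ _ => rfl),
      Finsupp.sum_single_index rfl] at h2
    exact h2
  obtain ⟨m, hm⟩ := MvPolynomial.support_nonempty.mpr h
  have h0 := key m hm
  rw [MvPolynomial.totalDegree, Finset.sup_lt_iff (by rw [Nat.bot_eq_zero]; omega)]
  intro m hm
  have := key m hm
  omega

theorem core (h : T_LOG) (a : Fin r → ℕ) (hinj : Function.Injective a) (ha : ∀ i, 1 ≤ a i) :
    ∀ (n : ℕ) (P : MvPolynomial (Fin r ⊕ Unit) ℂ), P.totalDegree = n → Vn a P → P = 0 := by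
  intro n
  induction n using Nat.strong_induction_on with
  | _ n ih =>
    intro P hn hP
    have hd : ∀ i, MvPolynomial.pderiv (Sum.inl i) P = 0 := by
      intro i
      by_contra hne
      have h1 := deg_pderiv P i hne
      rw [hn] at h1
      exact hne (ih _ h1 _ rfl (Vn_pderiv h a hinj ha i P hP))
    have hvars : (↑P.vars : Set (Fin r ⊕ Unit)) ⊆ Set.range Sum.inr := by
      intro v hv
      rcases v with i | u
      · exfalso
        rw [Finset.mem_coe, MvPolynomial.mem_vars_iff_mem_support] at hv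
        obtain ⟨d, hd1, hd2⟩ := hv
        have h1 := MvPolynomial.coeff_pderiv (i := Sum.inl i) P (d - Finsupp.single (Sum.inl i) 1)
        rw [hd i, MvPolynomial.coeff_zero] at h1
        have h2 : d - Finsupp.single (Sum.inl i) 1 + Finsupp.single (Sum.inl i) 1 = d := by
          apply tsub_add_cancel_of_le
          rw [Finsupp.single_le_iff]
          exact Nat.one_le_iff_ne_zero.mpr (Finsupp.mem_support_iff.mp hd2)
        rw [h2] at h1
        have h3 : MvPolynomial.coeff d P ≠ 0 := MvPolynomial.mem_support_iff.mp hd1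
        have h4 : (((d - Finsupp.single (Sum.inl i) 1 : (Fin r ⊕ Unit) →₀ ℕ) (Sum.inl i) : ℂ) + 1)
            ≠ 0 := Nat.cast_add_one_ne_zero _
        exact mul_ne_zero h3 h4 h1.symm
      · exact ⟨u, rfl⟩
    obtain ⟨Q, rfl⟩ := MvPolynomial.exists_rename_eq_of_vars_subset_range P Sum.inr
      Sum.inr_injective hvars
    have hQ : Q = 0 := by
      refine MvPolynomial.funext_set (fun _ => UH) (fun _ => infinite_UH) (fun x hx => ?_)
      have hxz : x () ∈ UH := hx () trivial
      have h1 := hP (x ()) hxz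
      rw [MvPolynomial.aeval_rename] at h1
      have h2 : (vs a (x ()) ∘ Sum.inr : Unit → ℂ) = x := by
        funext u
        rfl
      rw [h2] at h1
      rw [map_zero]
      exact h1
    rw [hQ, map_zero]

end LOGS_

open LOGS_ in
/-- D7 independence of the logarithms -/
theorem p_LOGS (h : T_LOG) : T_LOGS := by
  intro r a hinj ha P hP
  exact core h a hinj ha _ P rfl hP

end Pool.Agent.Leg
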