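import Pool.Agent.Leg.Targets

set_option autoImplicit false

/-!
Reduction of the several variables count to the one variable count (`T_MULTI`).
-/

namespace Pool.Agent.Leg

namespace MULTI_

open Finset

section coeffs

variable {σ τ : Type} [Fintype σ] [Fintype τ]

/-- the exponents of the first block -/
noncomputable def lft (d : σ ⊕ τ →₀ ℕ) : σ →₀ ℕ := d.comapDomain Sum.inl Sum.inl_injective.injOn

/-- the exponents of the second block -/
noncomputable def rgt (d : σ ⊕ τ →₀ ℕ) : τ →₀ ℕ := d.comapDomain Sum.inr Sum.inr_injective.injOn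

open Classical in
/-- the coefficient of a monomial of the second block -/
noncomputable def co (m : τ →₀ ℕ) (P : MvPolynomial (σ ⊕ τ) ℤ) : MvPolynomial σ ℤ :=
  ∑ d ∈ P.support.filter (fun d => rgt d = m), MvPolynomial.monomial (lft d) (P.coeff d)

theorem degree_lft (d : σ ⊕ τ →₀ ℕ) : (lft d).sum (fun _ e => e) ≤ d.sum (fun _ e => e) := by
  rw [Finsupp.sum_fintype _ _ (fun _ => rfl), Finsupp.sum_fintype _ _ (fun _ => rfl),
    Fintype.sum_sum_type]
  simp only [lft, Finsupp.comapDomain_apply]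
  exact Nat.le_add_right _ _

theorem totalDegree_co (m : τ →₀ ℕ) (P : MvPolynomial (σ ⊕ τ) ℤ) :
    (co m P).totalDegree ≤ P.totalDegree := by
  classical
  unfold co
  refine (MvPolynomial.totalDegree_finsetSum _ _).trans ?_
  refine Finset.sup_le fun d hd => ?_
  have hd' := (Finset.mem_filter.1 hd).1
  exact (MvPolynomial.totalDegree_monomial_le _ _).trans
    ((degree_lft d).trans (MvPolynomial.le_totalDegree hd'))

theorem coeff_aeval {A : Type} [CommRing A] [Algebra ℤ A] (u : σ → A) (m : τ →₀ ℕ)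
    (P : MvPolynomial (σ ⊕ τ) ℤ) :
    MvPolynomial.coeff m (MvPolynomial.aeval
      (Sum.elim (fun i => MvPolynomial.C (u i)) MvPolynomial.X : σ ⊕ τ → MvPolynomial τ A) P) =
      MvPolynomial.aeval u (co m P) := by
  classical
  conv_lhs => rw [P.as_sum]
  unfold co
  rw [map_sum, MvPolynomial.coeff_sum, map_sum, Finset.sum_filter]
  refine Finset.sum_congr rfl fun d _ => ?_
  rw [MvPolynomial.aeval_monomial, Finsupp.prod_fintype _ _ (fun _ => pow_zero _),
    Fintype.prod_sum_type]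
  simp only [Sum.elim_inl, Sum.elim_inr]
  have h1 : ∏ x : τ, (MvPolynomial.X x : MvPolynomial τ A) ^ d (Sum.inr x) =
      MvPolynomial.monomial (rgt d) 1 := by
    rw [MvPolynomial.monomial_eq, Finsupp.prod_fintype _ _ (fun _ => pow_zero _), map_one,
      one_mul]
    rfl
  have h2 : ∏ x : σ, (MvPolynomial.C (u x) : MvPolynomial τ A) ^ d (Sum.inl x) =
      MvPolynomial.C (∏ x : σ, u x ^ d (Sum.inl x)) := by
    rw [map_prod]
    simp
  have h3 : algebraMap ℤ (MvPolynomial τ A) (P.coeff d) =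
      MvPolynomial.C (algebraMap ℤ A (P.coeff d)) := rfl
  rw [h1, h2, h3, ← mul_assoc, ← MvPolynomial.C_mul, MvPolynomial.coeff_C_mul,
    MvPolynomial.coeff_monomial]
  by_cases h : rgt d = m
  · rw [if_pos h, if_pos h, mul_one, MvPolynomial.aeval_monomial,
      Finsupp.prod_fintype _ _ (fun _ => pow_zero _)]
    rfl
  · rw [if_neg h, if_neg h, mul_zero]

end coeffs

/-- regrouping of the variables -/
def ee (n k : ℕ) : Fin k ⊕ (Fin (n + 1) × Fin 3) → (Fin k ⊕ Fin 3) ⊕ (Fin n × Fin 3)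
  | Sum.inl i => Sum.inl (Sum.inl i)
  | Sum.inr (i, j) => Fin.cases (Sum.inl (Sum.inr j)) (fun i' => Sum.inr (i', j)) i

theorem exc_cases (n k D : ℕ) (θ : Fin k → ℂ) (z : Fin 3 → ℂ) (y : Fin (n + 1) × Fin 3 → ℂ)
    (hz : ∀ j, y (0, j) = z j) (h : Rel D θ y) :
    Rel D θ z ∨ Rel D (fun i => Sum.elim θ z (finSumFinEquiv.symm i) : Fin (k + 3) → ℂ)
      (fun q : Fin n × Fin 3 => y (q.1.succ, q.2)) := by
  obtain ⟨P, hP, hne, h0⟩ := h
  set P1 : MvPolynomial ((Fin k ⊕ Fin 3) ⊕ (Fin n × Fin 3)) ℤ :=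
    MvPolynomial.rename (ee n k) P with hP1
  have hdeg : P1.totalDegree ≤ D := (MvPolynomial.totalDegree_rename_le _ _).trans hP
  set u : Fin k ⊕ Fin 3 → ℂ := Sum.elim θ z with hu
  by_cases hA : ∀ m, MvPolynomial.aeval u (co m P1) = 0
  · left
    -- some coefficient gives a relation for the first block
    have : ∃ m, sp θ (co m P1) ≠ 0 := by
      by_contra hcon
      push Not at hcon
      apply hne
      have h1 : MvPolynomial.aeval (Sum.elim
          (fun i => MvPolynomial.C ((Sum.elim (fun i => MvPolynomial.C (θ i)) MvPolynomial.X :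
            Fin k ⊕ Fin 3 → MvPolynomial (Fin 3) ℂ) i)) MvPolynomial.X :
          (Fin k ⊕ Fin 3) ⊕ (Fin n × Fin 3) →
            MvPolynomial (Fin n × Fin 3) (MvPolynomial (Fin 3) ℂ)) P1 = 0 := by
        ext1 m
        rw [coeff_aeval, MvPolynomial.coeff_zero]
        exact hcon m
      let φ : MvPolynomial (Fin n × Fin 3) (MvPolynomial (Fin 3) ℂ) →+*
          MvPolynomial (Fin (n + 1) × Fin 3) ℂ :=
        MvPolynomial.eval₂Hom
          (MvPolynomial.aeval (fun j : Fin 3 =>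
            (MvPolynomial.X ((0 : Fin (n + 1)), j) : MvPolynomial (Fin (n + 1) × Fin 3) ℂ))).toRingHom
          (fun q => MvPolynomial.X (q.1.succ, q.2))
      have h2 := congrArg φ h1
      rw [map_zero, hP1] at h2
      rw [← h2]
      unfold sp
      have h3 : ∀ Q : MvPolynomial (Fin k ⊕ (Fin (n + 1) × Fin 3)) ℤ,
          MvPolynomial.aeval (Sum.elim (fun i => MvPolynomial.C (θ i)) MvPolynomial.X :
            Fin k ⊕ (Fin (n + 1) × Fin 3) → MvPolynomial (Fin (n + 1) × Fin 3) ℂ) Q =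
          φ (MvPolynomial.aeval (Sum.elim
          (fun i => MvPolynomial.C ((Sum.elim (fun i => MvPolynomial.C (θ i)) MvPolynomial.X :
            Fin k ⊕ Fin 3 → MvPolynomial (Fin 3) ℂ) i)) MvPolynomial.X :
          (Fin k ⊕ Fin 3) ⊕ (Fin n × Fin 3) →
            MvPolynomial (Fin n × Fin 3) (MvPolynomial (Fin 3) ℂ))
              (MvPolynomial.rename (ee n k) Q)) := by
        intro Q
        induction Q using MvPolynomial.induction_on with
        | C a => simp [φ]
        | add p q hp hq => rw [map_add, hp, hq, map_add, map_add, map_add]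
        | mul_X p i hp =>
          rw [map_mul, hp, map_mul, map_mul, map_mul]
          congr 1
          rw [MvPolynomial.aeval_X, MvPolynomial.rename_X, MvPolynomial.aeval_X]
          rcases i with i | ⟨i, j⟩
          · simp [ee, φ]
          · induction i using Fin.cases with
            | zero => simp [ee, φ]
            | succ i => simp [ee, φ]
      exact h3 P
    obtain ⟨m, hm⟩ := this
    exact ⟨co m P1, (totalDegree_co m P1).trans hdeg, hm, hA m⟩
  · right
    push Not at hA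
    obtain ⟨m, hm⟩ := hA
    refine ⟨MvPolynomial.rename (Sum.map finSumFinEquiv id) P1,
      (MvPolynomial.totalDegree_rename_le _ _).trans hdeg, ?_, ?_⟩
    · intro hcon
      apply hm
      rw [← coeff_aeval]
      unfold sp at hcon
      rw [MvPolynomial.aeval_rename] at hcon
      have h1 : (Sum.elim (fun i => MvPolynomial.C (u i)) MvPolynomial.X :
          (Fin k ⊕ Fin 3) ⊕ (Fin n × Fin 3) → MvPolynomial (Fin n × Fin 3) ℂ) =
          (Sum.elim (fun i => MvPolynomial.C (Sum.elim θ z (finSumFinEquiv.symm i)))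
            MvPolynomial.X) ∘ (Sum.map finSumFinEquiv id) := by
        funext x
        rcases x with x | x
        · simp [hu]
        · simp
      rw [h1, hcon, MvPolynomial.coeff_zero]
    · rw [MvPolynomial.aeval_rename, hP1, MvPolynomial.aeval_rename, ← h0]
      congr 1
      congr 1
      funext x
      rcases x with x | ⟨i, j⟩
      · simp [ee, hu]
      · induction i using Fin.cases with
        | zero => simp [ee, hz, hu]
        | succ i => simp [ee]

/-- the box -/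
def box (n T : ℕ) : Set (Fin n → ℕ) := {t | ∀ i, 1 ≤ t i ∧ t i ≤ T}

theorem box_eq (n T : ℕ) : box n T =
    ((Fintype.piFinset (fun _ : Fin n => Finset.Icc 1 T) : Finset (Fin n → ℕ)) :
        Set (Fin n → ℕ)) := by
  ext x
  simp only [box, Set.mem_ofPred_eq, Finset.mem_coe, Fintype.mem_piFinset, Finset.mem_Icc]

theorem ncard_box (n T : ℕ) : (box n T).ncard = T ^ n := by
  rw [box_eq, Set.ncard_coe_finset, Fintype.card_piFinset]
  simp

theorem finite_box (n T : ℕ) : (box n T).Finite := by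
  rw [box_eq]
  exact Finset.finite_toSet _

/-- exceptional numbers -/
def E1 {k : ℕ} (D T : ℕ) (θ : Fin k → ℂ) : Set ℕ :=
  {t : ℕ | (2 ≤ t ∧ t ≤ T) ∧ Rel D θ (pr t)}

/-- exceptional tuples -/
def En (n : ℕ) {k : ℕ} (D T : ℕ) (θ : Fin k → ℂ) : Set (Fin n → ℕ) :=
  {t : Fin n → ℕ | (∀ i, 2 ≤ t i ∧ t i ≤ T) ∧
    Rel D θ (fun q : Fin n × Fin 3 => pr (t q.1) q.2)}

theorem count_le (n k D : ℕ) (θ : Fin k → ℂ) (T : ℕ) (M : ℝ)
    (hM : ∀ θ' : Fin (k + 3) → ℂ, ((En n D T θ').ncard : ℝ) ≤ M) :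
    ((En (n + 1) D T θ).ncard : ℝ) ≤ ((E1 D T θ).ncard : ℝ) * (T : ℝ) ^ n + T * M := by
  classical
  set A : Set ℕ := E1 D T θ with hA
  set B : Set (Fin n → ℕ) := box n T with hB
  set E : ℕ → Set (Fin n → ℕ) := fun t0 =>
    En n D T (fun i => Sum.elim θ (pr t0) (finSumFinEquiv.symm i) : Fin (k + 3) → ℂ) with hE
  have hAf : A.Finite := (Set.finite_Icc 2 T).subset fun t ht => ht.1
  have hBf : B.Finite := finite_box n T
  have hEf : ∀ t0, (E t0).Finite := fun t0 =>
    hBf.subset fun t ht i => ⟨by have := (ht.1 i).1; omega, (ht.1 i).2⟩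
  let cn : ℕ → (Fin n → ℕ) → (Fin (n + 1) → ℕ) := fun a b => Fin.cons a b
  let U1 : Set (Fin (n + 1) → ℕ) := (fun p : ℕ × (Fin n → ℕ) => cn p.1 p.2) '' (A ×ˢ B)
  let U2 : Set (Fin (n + 1) → ℕ) := ⋃ a ∈ Finset.Icc 1 T, (cn a) '' (E a)
  have hU1f : U1.Finite := (hAf.prod hBf).image _
  have hU2f : U2.Finite := Set.Finite.biUnion (Finset.finite_toSet _) fun a _ => (hEf a).image _
  have hsub : En (n + 1) D T θ ⊆ U1 ∪ U2 := by
    rintro t ⟨htp, ht⟩
    have h0 : 2 ≤ t 0 ∧ t 0 ≤ T := htp 0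
    have htl : Fin.tail t ∈ B := fun i =>
      ⟨by have := (htp i.succ).1; simp only [Fin.tail]; omega, (htp i.succ).2⟩
    have htl2 : ∀ i, 2 ≤ Fin.tail t i ∧ Fin.tail t i ≤ T := fun i => htp i.succ
    rcases exc_cases n k D θ (pr (t 0)) _ (fun j => rfl) ht with h | h
    · left
      exact ⟨(t 0, Fin.tail t), ⟨⟨h0, h⟩, htl⟩, Fin.cons_self_tail t⟩
    · right
      simp only [U2, Set.mem_iUnion]
      exact ⟨t 0, Finset.mem_Icc.2 ⟨by omega, h0.2⟩, Fin.tail t, ⟨htl2, h⟩,
        Fin.cons_self_tail t⟩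
  have hc1 : U1.ncard ≤ A.ncard * T ^ n := by
    calc U1.ncard ≤ (A ×ˢ B).ncard := Set.ncard_image_le (hAf.prod hBf)
      _ = A.ncard * B.ncard := Set.ncard_prod
      _ = A.ncard * T ^ n := by rw [hB, ncard_box]
  have hc2 : U2.ncard ≤ ∑ a ∈ Finset.Icc 1 T, (E a).ncard := by
    calc U2.ncard ≤ ∑ a ∈ Finset.Icc 1 T, ((cn a) '' (E a)).ncard :=
          Finset.set_ncard_biUnion_le _ _
      _ ≤ ∑ a ∈ Finset.Icc 1 T, (E a).ncard :=
          Finset.sum_le_sum fun a _ => Set.ncard_image_le (hEf a)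
  have hc3 : (∑ a ∈ Finset.Icc 1 T, ((E a).ncard : ℝ)) ≤ T * M := by
    calc (∑ a ∈ Finset.Icc 1 T, ((E a).ncard : ℝ)) ≤ ∑ a ∈ Finset.Icc 1 T, M :=
          Finset.sum_le_sum fun a _ => hM _
      _ = T * M := by simp
  have hc4 : (En (n + 1) D T θ).ncard ≤ U1.ncard + U2.ncard :=
    (Set.ncard_le_ncard hsub (hU1f.union hU2f)).trans (Set.ncard_union_le _ _)
  calc ((En (n + 1) D T θ).ncard : ℝ)
      ≤ (U1.ncard : ℝ) + (U2.ncard : ℝ) := by exact_mod_cast hc4
    _ ≤ (A.ncard : ℝ) * (T : ℝ) ^ n + ∑ a ∈ Finset.Icc 1 T, ((E a).ncard : ℝ) := by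
        have h1 : (U1.ncard : ℝ) ≤ (A.ncard : ℝ) * (T : ℝ) ^ n := by exact_mod_cast hc1
        have h2 : (U2.ncard : ℝ) ≤ ∑ a ∈ Finset.Icc 1 T, ((E a).ncard : ℝ) := by
          exact_mod_cast hc2
        linarith
    _ ≤ (A.ncard : ℝ) * (T : ℝ) ^ n + T * M := by linarith

theorem en_zero {k : ℕ} (D T : ℕ) (θ : Fin k → ℂ) : En 0 D T θ = ∅ := by
  ext t
  simp only [Set.mem_empty_iff_false, iff_false]
  rintro ⟨-, P, -, hne, h0⟩
  apply hne
  have h1 : sp θ P = MvPolynomial.C (MvPolynomial.coeff 0 (sp θ P)) :=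
    MvPolynomial.eq_C_of_isEmpty _
  have h3 : ∀ Q : MvPolynomial (Fin k ⊕ (Fin 0 × Fin 3)) ℤ,
      MvPolynomial.aeval (fun q : Fin 0 × Fin 3 => pr (t q.1) q.2) (sp θ Q) =
      MvPolynomial.aeval (Sum.elim θ (fun q : Fin 0 × Fin 3 => pr (t q.1) q.2)) Q := by
    intro Q
    unfold sp
    induction Q using MvPolynomial.induction_on with
    | C a => simp
    | add p q hp hq => rw [map_add, map_add, hp, hq, map_add]
    | mul_X p i hp =>
      rw [map_mul, map_mul, hp, map_mul]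
      congr 1
      rcases i with i | i
      · simp
      · simp
  have h2 := h3 P
  rw [h0, h1, MvPolynomial.aeval_C] at h2
  rw [h1]
  have h4 : MvPolynomial.coeff 0 (sp θ P) = 0 := h2
  rw [h4, map_zero]

end MULTI_

theorem p_MULTI (h : T_DENS) : T_MULTI := by
  intro n
  induction n with
  | zero =>
    intro k D ε hε
    refine ⟨0, fun θ T _ => ?_⟩
    have h1 := MULTI_.en_zero D T θ
    unfold MULTI_.En at h1
    rw [h1, Set.ncard_empty]
    simpa using hε.le
  | succ n ih =>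
    intro k D ε hε
    obtain ⟨T1, hT1⟩ := h k D (ε / 2) (half_pos hε)
    obtain ⟨T2, hT2⟩ := ih (k + 3) D (ε / 2) (half_pos hε)
    refine ⟨max T1 T2, fun θ T hT => ?_⟩
    have h1 := hT1 θ T ((le_max_left _ _).trans hT)
    have h2 := MULTI_.count_le n k D θ T (ε / 2 * (T : ℝ) ^ n)
      (fun θ' => hT2 θ' T ((le_max_right _ _).trans hT))
    change ((MULTI_.En (n + 1) D T θ).ncard : ℝ) ≤ _
    refine h2.trans ?_
    have h3 : ((MULTI_.E1 D T θ).ncard : ℝ) ≤ ε / 2 * T := h1
    have h4 : (0 : ℝ) ≤ (T : ℝ) ^ n := by positivity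
    have h5 := mul_le_mul_of_nonneg_right h3 h4
    calc _ ≤ ε / 2 * T * (T : ℝ) ^ n + T * (ε / 2 * (T : ℝ) ^ n) := by linarith
      _ = ε * (T : ℝ) ^ (n + 1) := by ring

end Pool.Agent.Leg
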