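import Pool.Agent.Leg.Defs

set_option autoImplicit false

/-! Exact targets of the project Leg (MP_5d33ca_ag).  Proofs: `Blueprint.lean.txt`. -/

namespace Pool.Agent.Leg

open Finset Filter Topology
open scoped BigOperators

/-! ## A. Values of G-functions at 1/N -/

/-- A1 closure properties of `GT` -/
def T_GT : Prop := (∀ g h, GT g → GT h → GT (g + h)) ∧ (∀ g h, GT g → GT h → GT (g * h)) ∧
  (∀ g, GT g → GT (-g)) ∧ (∀ p : Polynomial ℚ, GT (p : PowerSeries ℚ)) ∧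
  (∀ g, GT g → GT (dX g)) ∧ ∀ a : ℤ, GT (ip a)

/-- A2 closure properties of `GT2` -/
def T_GT2 : Prop := (∀ u v, GT2 u → GT2 v → GT2 (fun n => u n + v n)) ∧
  (∀ u v, GT2 u → GT2 v → GT2 (fun n => ∑ p ∈ antidiagonal n, u p.1 * v p.2)) ∧
  (∀ g, GT g → GT2 (fun n => th n g)) ∧ (∀ g, GT g → GT2 (fun n => if n = 0 then g else 0)) ∧
  GT2 (fun n => PowerSeries.C ((-1 : ℚ) ^ n / n))

/-- A3 Siegel's lemma -/
def T_SIEG : Prop := ∀ (ι : Type) [Fintype ι] [DecidableEq ι] (o : ι) (f : ι → PowerSeries ℚ),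
  (∀ i, GT (f i)) → f o = 1 → 2 ≤ Fintype.card ι → ∃ C : ℕ, 1 ≤ C ∧ ∀ L n m σ : ℕ, 2 ≤ L → 1 ≤ n →
  m = (Fintype.card ι - 1) * L * n → σ = m + 1 + (L - 1) * n → ∃ P : ι → Polynomial ℚ,
    Pade f o m σ P ∧ (∀ s, |(P o).coeff s| ≤ (C : ℚ) ^ (L * σ)) ∧
    ∃ d : ℕ, 0 < d ∧ d ≤ C ^ σ ∧ ∀ i s, ∃ x : ℤ, (d : ℚ) * (P i).coeff s = x

/-- A4 the determinant does not vanish -/
def T_NONZ : Prop := ∀ (ι : Type) [Fintype ι] [DecidableEq ι] (o : ι) (T : Polynomial ℚ)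
  (A : ι → ι → Polynomial ℚ) (f : ι → PowerSeries ℚ) (m σ : ℕ) (P : ι → Polynomial ℚ), TOK T →
  Sol T A f → Ind f → IsNilpotent (Matrix.of fun i j => (A i j).coeff 0) → Pade f o m σ P →
  m < σ → WW T A P ≠ 0

/-- A5 order of the determinant at zero -/
def T_ORD0 : Prop := ∀ (ι : Type) [Fintype ι] [DecidableEq ι] (o : ι) (T : Polynomial ℚ)
  (A : ι → ι → Polynomial ℚ) (f : ι → PowerSeries ℚ) (m σ : ℕ) (P : ι → Polynomial ℚ), TOK T →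
  Sol T A f → f o = 1 → Pade f o m σ P →
  (Polynomial.X : Polynomial ℚ) ^ ((Fintype.card ι - 1) * σ) ∣ WW T A P

/-- A6 degree of the determinant -/
def T_DEG : Prop := ∀ (ι : Type) [Fintype ι] [DecidableEq ι] (T : Polynomial ℚ)
  (A : ι → ι → Polynomial ℚ) (m c : ℕ) (P : ι → Polynomial ℚ), T.natDegree ≤ c + 1 →
  (∀ i j, (A i j).natDegree ≤ c) → (∀ i, (P i).natDegree ≤ m) →
  (WW T A P).natDegree ≤ Fintype.card ι * m + c * Fintype.card ι ^ 2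

/-- A7 recursion of the `G_n` -/
def T_REC : Prop := ∀ (ι : Type) [Fintype ι] [DecidableEq ι] (T : Polynomial ℚ)
  (f : ι → PowerSeries ℚ) (G : ℕ → ι → ι → Polynomial ℚ), Ind f →
  (∀ n i, (T : PowerSeries ℚ) ^ n * dd n (f i) = ∑ j, (G n i j : PowerSeries ℚ) * f j) → GRec T G

/-- A8 the inverse fundamental matrix at `z0` -/
def T_PSI : Prop := ∀ (ι : Type) [Fintype ι] [DecidableEq ι] (T : Polynomial ℚ)
  (G : ℕ → ι → ι → Polynomial ℚ) (z0 : ℚ), T.eval z0 ≠ 0 → GRec T G →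
  (∀ i j, PowerSeries.coeff 0 (psi T G z0 i j) = if i = j then 1 else 0) ∧
  ∀ i j, ty z0 T * dX (psi T G z0 i j) = -∑ l, psi T G z0 i l * ty z0 (G 1 l j)

/-- A9 order of the determinant at `z0` -/
def T_ORD1 : Prop := ∀ (ι : Type) [Fintype ι] [DecidableEq ι] (T : Polynomial ℚ)
  (A : ι → ι → Polynomial ℚ) (z0 : ℚ) (Y : ι → ι → PowerSeries ℚ) (P : ι → Polynomial ℚ)
  (lam : ι → ℚ) (K0 : ℕ), T.eval z0 ≠ 0 →
  (∀ i j, PowerSeries.coeff 0 (Y i j) = if i = j then 1 else 0) →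
  (∀ i j, ty z0 T * dX (Y i j) = -∑ l, Y i l * ty z0 (A l j)) → lam ≠ 0 →
  (∀ k, k ≤ K0 → ∑ i, lam i * PowerSeries.coeff k (∑ j, Y i j * ty z0 (P j)) = 0) →
  (Polynomial.X - Polynomial.C z0) ^ (K0 + 1 - (Fintype.card ι - 1)) ∣ WW T A P

/-- A10 zero estimate (from A4, A5, A6, A8, A9) -/
def T_ZE : Prop := ∀ (ι : Type) [Fintype ι] [DecidableEq ι] (o : ι) (T : Polynomial ℚ)
  (f : ι → PowerSeries ℚ) (G : ℕ → ι → ι → Polynomial ℚ) (m σ c K0 : ℕ) (z0 : ℚ)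
  (P : ι → Polynomial ℚ) (lam : ι → ℚ), TOK T → Sol T (G 1) f → GRec T G → Ind f →
  IsNilpotent (Matrix.of fun i j => (G 1 i j).coeff 0) → f o = 1 → Pade f o m σ P → m < σ →
  T.natDegree ≤ c + 1 → (∀ i j, (G 1 i j).natDegree ≤ c) → z0 ≠ 0 → T.eval z0 ≠ 0 → lam ≠ 0 →
  (∀ k, k ≤ K0 → ∑ i, lam i * pk T G z0 P k i = 0) →
  (Fintype.card ι - 1) * σ + (K0 + 1 - (Fintype.card ι - 1)) ≤
    Fintype.card ι * m + c * Fintype.card ι ^ 2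

/-- A11 denominators -/
def T_DEN : Prop := ∀ (ι : Type) [Fintype ι] [DecidableEq ι] (T : Polynomial ℚ)
  (G : ℕ → ι → ι → Polynomial ℚ), TOK T → GM G → ∃ C N1 : ℕ, 1 ≤ C ∧
  ∀ N m d k : ℕ, N1 ≤ N → 0 < d → ∀ P : ι → Polynomial ℚ, (∀ i, (P i).natDegree ≤ m) →
  (∀ i s, ∃ x : ℤ, (d : ℚ) * (P i).coeff s = x) →
  T.eval (1 / (N : ℚ)) ≠ 0 ∧ ∃ e : ℕ, 0 < e ∧ e ≤ (C * N ^ C) ^ (k + 1) * (N ^ m * d) ∧
    ∀ i, ∃ x : ℤ, (e : ℚ) * pk T G (1 / (N : ℚ)) P k i = x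

/-- A12 size of `Ψ` -/
def T_PB : Prop := ∀ (ι : Type) [Fintype ι] [DecidableEq ι] (T : Polynomial ℚ)
  (G : ℕ → ι → ι → Polynomial ℚ), TOK T → GM G → ∃ C N1 : ℕ, 1 ≤ C ∧
  ∀ N : ℕ, N1 ≤ N → ∀ k i j,
    |PowerSeries.coeff k (psi T G (1 / (N : ℚ)) i j)| ≤ ((C : ℚ) * (N : ℚ) ^ C) ^ (k + 1)

/-- A13 Taylor expansion of power series -/
def T_SH : Prop := ∀ C x : ℝ, 1 ≤ C → 0 ≤ x → 4 * C * x < 1 →
  (∀ g, GB C g → PowerSeries.coeff 0 (sh x g) = vl g x) ∧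
  (∀ g h, GB C g → GB C h → sh x (g + h) = sh x g + sh x h) ∧
  (∀ g h, GB C g → GB C h → sh x (g * h) = sh x g * sh x h) ∧
  (∀ g, GB C g → sh x (dX g) = PowerSeries.derivative ℝ (sh x g)) ∧
  (∀ (g : PowerSeries ℚ) (H : ℝ) (σ : ℕ), 0 ≤ H →
    (∀ n, |((PowerSeries.coeff n g : ℚ) : ℝ)| ≤ H * C ^ (n + 1)) →
    (PowerSeries.X : PowerSeries ℚ) ^ σ ∣ g → ∀ j : ℕ,
    |PowerSeries.coeff j (sh x g)| ≤ 2 * H * C * (2 * C) ^ j * (2 * C * x) ^ (σ - j)) ∧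
  ∀ (z0 : ℚ) (p : Polynomial ℚ), x = z0 →
    sh x (p : PowerSeries ℚ) = PowerSeries.map (algebraMap ℚ ℝ) (ty z0 p)

/-- A14 smallness (from A8, A12, A13) -/
def T_AN : Prop := ∀ (ι : Type) [Fintype ι] [DecidableEq ι] (o : ι) (T : Polynomial ℚ)
  (f : ι → PowerSeries ℚ) (G : ℕ → ι → ι → Polynomial ℚ), TOK T → (∀ i, GT (f i)) → GM G →
  GRec T G → Sol T (G 1) f → ∃ C N1 : ℕ, 1 ≤ C ∧ ∀ (N m σ k : ℕ) (H : ℝ) (P : ι → Polynomial ℚ)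
  (c : ι → ℤ), N1 ≤ N → Pade f o m σ P → m < σ → (∀ s, |(((P o).coeff s : ℚ) : ℝ)| ≤ H) →
  ∑ i, (c i : ℝ) * vl (f i) (1 / (N : ℝ)) = 0 →
  |∑ i, (c i : ℝ) * ((pk T G (1 / (N : ℚ)) P k i : ℚ) : ℝ)| ≤
    (∑ i, |(c i : ℝ)|) * ((C : ℝ) * (N : ℝ) ^ C) ^ (k + 1) * (C : ℝ) ^ σ * (m + 1) * H /
      (N : ℝ) ^ σ

/-- A15 the theorem on values of G-functions (from A3, A7, A10, A11, A14) -/
def T_GF : Prop := ∀ (ι : Type) [Fintype ι] [DecidableEq ι] (o : ι) (T : Polynomial ℚ)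
  (f : ι → PowerSeries ℚ), TOK T → GSys T f → Ind f → f o = 1 → ∃ N0 : ℕ, ∀ N : ℕ, N0 ≤ N →
  ∀ c : ι → ℤ, ∑ i, (c i : ℝ) * vl (f i) (1 / (N : ℝ)) = 0 → c = 0

/-! ## B. The system of the Legendre family -/

/-- B1 properties of the substitution `z ↦ z / (1 + a z)` -/
def T_SB : Prop := ∀ a : ℕ, (∀ g h, sb a (g + h) = sb a g + sb a h) ∧
  (∀ g h, sb a (g * h) = sb a g * sb a h) ∧
  (∀ c : ℚ, sb a (PowerSeries.C c) = PowerSeries.C c) ∧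
  sb a PowerSeries.X = PowerSeries.X * ip a ∧
  (∀ g, (1 + PowerSeries.C (a : ℚ) * PowerSeries.X) ^ 2 * dX (sb a g) = sb a (dX g)) ∧
  ∀ g, GT g → GT (sb a g)

/-- B2 values -/
def T_SBV : Prop := (∀ (g : PowerSeries ℚ) (x : ℝ), (vl g x : ℂ) = cv g x) ∧
  (∀ (a : ℕ) (C : ℝ) (g : PowerSeries ℚ), 1 ≤ C → GB C g → ∀ z : ℂ, ‖z‖ * (4 * (C + a)) < 1 →
    cv (sb a g) z = cv g (z / (1 + a * z))) ∧
  ∀ (a : ℕ) (z : ℂ), ‖z‖ * (4 * (1 + a)) < 1 → cv (lg a) z = Complex.log (1 + a * z)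

/-- B3 the series are of type `GT` (hypotheses A1) -/
def T_GTS : Prop := GT sF ∧ GT sE ∧ GT sB ∧ GT sH ∧ ∀ a, GT (lg a)

/-- B4 differential equations of the series -/
def T_ALG : Prop :=
  2 * PowerSeries.X * (1 - PowerSeries.X) * dX sF = sE - (1 - PowerSeries.X) * sF ∧
  2 * PowerSeries.X * dX sE = sE - sF ∧
  4 * PowerSeries.X * (1 - PowerSeries.X) * dX sB =
    2 * (sH - (1 - PowerSeries.X) * sB) - (1 - PowerSeries.X) * sF ∧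
  4 * PowerSeries.X * dX sH = 2 * (sH - sB) - sE ∧
  sF * sH - sE * sB = PowerSeries.C (1 / 2 : ℚ)

/-- B5 the system of one block (from B1, B3, B4) -/
def T_SYS : Prop := ∀ a : ℕ, 1 ≤ a →
  (∀ i, PowerSeries.X * dX (fa a i) = ∑ j, AA a i j * fa a j) ∧
  fa a 0 * fa a 3 - fa a 1 * fa a 2 = PowerSeries.C (1 / 2 : ℚ) ∧ ∀ i, GT (fa a i)

/-- B6 Galochkin's condition for one block (from A1, A2, B3, B5) -/
def T_BLK : Prop := ∀ a : ℕ, 1 ≤ a → ∃ Θ : ℕ → Fin 4 → Fin 4 → PowerSeries ℚ,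
  (∀ i j, Θ 0 i j = if i = j then 1 else 0) ∧
  (∀ (n : ℕ) (i j : Fin 4), ((n : PowerSeries ℚ) + 1) * Θ (n + 1) i j =
    PowerSeries.X * dX (Θ n i j) - (n : PowerSeries ℚ) * Θ n i j + ∑ l, Θ n i l * AA a l j) ∧
  ∀ i j, GT2 (fun n => Θ n i j)

/-- B7 from the matrices `Θ_n = (z^n / T^n) G_n` to `GSys` -/
def T_GAL : Prop := ∀ (ι : Type) [Fintype ι] [DecidableEq ι] (T : Polynomial ℚ)
  (A : ι → ι → Polynomial ℚ) (f : ι → PowerSeries ℚ) (Θ : ℕ → ι → ι → PowerSeries ℚ), TOK T →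
  (∀ i, GT (f i)) → Sol T A f → (∀ i j, Θ 0 i j = if i = j then 1 else 0) →
  (∀ (n : ℕ) (i j : ι), (T.divX : PowerSeries ℚ) * (((n : PowerSeries ℚ) + 1) * Θ (n + 1) i j) =
    (T.divX : PowerSeries ℚ) * (PowerSeries.X * dX (Θ n i j) - (n : PowerSeries ℚ) * Θ n i j) +
      ∑ l, Θ n i l * (A l j : PowerSeries ℚ)) →
  (∀ i j, GT2 (fun n => Θ n i j)) → IsNilpotent (Matrix.of fun i j => (A i j).coeff 0) →
  GSys T f

/-- B8 the system of `1`, the blocks and the logarithms (from A1, A2, B3, B5, B6, B7) -/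
def T_FS : Prop := ∀ (r : ℕ) (a : Fin r → ℕ), (∀ i, 1 ≤ a i) → TOK (TT a) ∧ GSys (TT a) (fs a)

/-- B9 tensor products -/
def T_POW : Prop := ∀ (ι : Type) [Fintype ι] [DecidableEq ι] (T : Polynomial ℚ)
  (f : ι → PowerSeries ℚ) (B : ℕ), TOK T → GSys T f →
  GSys T (fun J : Fin B → ι => ∏ b, f (J b))

/-- B10 passage to a basis -/
def T_RED : Prop := ∀ (ι κ : Type) [Fintype ι] [DecidableEq ι] [Fintype κ] [DecidableEq κ]
  (T : Polynomial ℚ) (f : ι → PowerSeries ℚ) (e : κ → ι) (ρ : ι → κ → ℚ), TOK T → GSys T f →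
  (∀ i, f i = ∑ k, PowerSeries.C (ρ i k) * f (e k)) → (∀ k l, ρ (e k) l = if k = l then 1 else 0) →
  Ind (fun k => f (e k)) → GSys T (fun k => f (e k))

/-- B11 existence of a basis containing `f o` -/
def T_BAS : Prop := ∀ (ι : Type) [Fintype ι] [DecidableEq ι] (o : ι) (f : ι → PowerSeries ℚ),
  f o = 1 → ∃ (M : ℕ) (e : Fin M → ι) (ρ : ι → Fin M → ℚ) (o' : Fin M), e o' = o ∧
  LinearIndependent ℚ (fun k => f (e k)) ∧
  (∀ i, f i = ∑ k, PowerSeries.C (ρ i k) * f (e k)) ∧ ∀ k l, ρ (e k) l = if k = l then 1 else 0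

/-- B12 independence over `ℚ` implies independence over `ℚ(z)` (from B5, D9) -/
def T_IND : Prop := ∀ (r : ℕ) (a : Fin r → ℕ) (B : ℕ) (κ : Type) [Fintype κ]
  (e : κ → Fin B → Option (Fin r × Fin 5)), Aok a →
  LinearIndependent ℚ (fun k => mon a B (e k)) → Ind (fun k => mon a B (e k))

/-- B13 the values are independent in bounded degree (from A15, B8 - B12, D9) -/
def T_EV : Prop := ∀ (r B : ℕ) (a : Fin r → ℕ), Aok a → ∃ N0 : ℕ, ∀ N : ℕ, N0 ≤ N →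
  ∀ R : MvPolynomial (Fin r × Fin 4) ℤ, R.totalDegree ≤ B →
    MvPolynomial.aeval (fun p => vl (xs a p) (1 / (N : ℝ))) R = 0 → R = 0

/-! ## C. Elliptic integrals -/

/-- C1 power series -/
def T_KPS : Prop := ∀ l : ℂ, ‖l‖ < 1 → Kc l = (Real.pi / 2 : ℂ) * cv sF l ∧
  Ec l = (Real.pi / 2 : ℂ) * cv sE l

/-- C2 real values -/
def T_KRE : Prop := ∀ l : ℝ, l < 1 → Kc l = (ellK l : ℂ) ∧ Ec l = (ellE l : ℂ)

/-- C3 analyticity and differential equations -/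
def T_KAN : Prop := ∀ l : ℂ, 1 - l ∈ Complex.slitPlane → DifferentiableAt ℂ Kc l ∧
  DifferentiableAt ℂ Ec l ∧ 2 * l * (1 - l) * deriv Kc l = Ec l - (1 - l) * Kc l ∧
  2 * l * deriv Ec l = Ec l - Kc l

/-- C4 analyticity of the power series in the unit disc and their derivatives -/
def T_CV : Prop := ∀ g : PowerSeries ℚ, (g = sF ∨ g = sE ∨ g = sB ∨ g = sH) → ∀ l : ℂ, ‖l‖ < 1 →
  AnalyticAt ℂ (cv g) l ∧ deriv (cv g) l = cv (dX g) l ∧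
  ∀ h : PowerSeries ℚ, (h = sF ∨ h = sE ∨ h = sB ∨ h = sH) → cv (g * h) l = cv g l * cv h l

/-- C5 the connection formula (from B4, C1, C3, C4) -/
def T_CONN : Prop := ∃ α β : ℂ, β ≠ 0 ∧ ∀ l : ℂ, ‖l‖ < 1 → l ∈ Complex.slitPlane →
  Kc (1 - l) = α * cv sF l + β * (-(1 / 2) * Complex.log l * cv sF l - 2 * cv sB l) ∧
  Kc (1 - l) - Ec (1 - l) =
    α * cv sE l + β * (-(1 / 2) * Complex.log l * cv sE l - 2 * cv sH l)

/-- C6 the Wronskian (from C3, C5, B4) -/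
def T_WR : Prop := ∃ c : ℂ, c ≠ 0 ∧ ∀ l : ℂ, l ∈ Complex.slitPlane → 1 - l ∈ Complex.slitPlane →
  Kc l * (Kc (1 - l) - Ec (1 - l)) - Kc (1 - l) * Ec l = c

/-- C7 Legendre's relation -/
def T_LEG : Prop := ∀ l : ℝ, 0 < l → l < 1 →
  ellE l * ellK (1 - l) + ellE (1 - l) * ellK l - ellK l * ellK (1 - l) = Real.pi / 2

/-! ## D. Algebraic independence of the functions -/

/-- D1 a logarithm is transcendental over functions analytic at `s` -/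
def T_LOG : Prop := ∀ (s : ℂ) (Λ : ℂ → ℂ) (n : ℕ) (u : ℕ → ℂ → ℂ), s.im = 0 → Lk s Λ →
  (∀ k, AnalyticAt ℂ (u k) s) → (∀ᶠ z in 𝓝[UH] s, ∑ k ∈ range n, u k z * Λ z ^ k = 0) →
  ∀ k, k < n → ∀ᶠ z in 𝓝 s, u k z = 0

/-- D2 the functions are analytic on the upper half plane -/
def T_HAN : Prop := ∀ (r : ℕ) (a : Fin r → ℕ) (v : Vr r), DifferentiableOn ℂ (hv a v) UH

/-- D3 the relations are stable under the derivation `d` (from D1, D2) -/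
def T_DER : Prop := ∀ (r : ℕ) (a : Fin r → ℕ) (s : ℂ) (d : Vr r → MvPolynomial (Vr r) ℂ),
  s.im = 0 → Near a s d → ∀ P, Van a P → Van a (MvPolynomial.mkDerivation ℂ d P)

/-- D4 the point `0` (from C1, C3, C4, C5) -/
def T_NEAR0 : Prop := ∀ (r : ℕ) (a : Fin r → ℕ), Aok a → ∃ c : ℂ, c ≠ 0 ∧ Near a 0 (d0 c)

/-- D5 the points `-1/(a_i - 1)` (from C1, C3, C4, C5) -/
def T_NEAR1 : Prop := ∀ (r : ℕ) (a : Fin r → ℕ) (i : Fin r), Aok a →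
  ∃ c : ℂ, c ≠ 0 ∧ Near a (-1 / ((a i : ℂ) - 1)) (dF i c)

/-- D6 commutators -/
def T_LIE : Prop := ∀ (r : ℕ) (a : Fin r → ℕ) (c : Fin r → ℂ) (c0 : ℂ), (∀ i, c i ≠ 0) → c0 ≠ 0 →
  (∀ i P, Van a P → Van a (MvPolynomial.mkDerivation ℂ (dF i (c i)) P)) →
  (∀ P, Van a P → Van a (MvPolynomial.mkDerivation ℂ (d0 c0) P)) →
  (∀ i P, Van a P → Van a (MvPolynomial.mkDerivation ℂ (dF i 1) P)) ∧
  (∀ i P, Van a P → Van a (MvPolynomial.mkDerivation ℂ (dE i 1) P)) ∧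
  (∀ i P, Van a P → Van a (MvPolynomial.mkDerivation ℂ (dH i) P)) ∧
  ∀ P, Van a P → Van a (MvPolynomial.pderiv (Sum.inr 1) P)

/-- D7 independence of the logarithms (from D1) -/
def T_LOGS : Prop := ∀ (r : ℕ) (a : Fin r → ℕ), Function.Injective a → (∀ i, 1 ≤ a i) →
  ∀ P : MvPolynomial (Fin r ⊕ Unit) ℂ, (∀ z ∈ UH, MvPolynomial.aeval
    (Sum.elim (fun i => Complex.log (1 + a i * z)) (fun _ => z)) P = 0) → P = 0

/-- D8 algebraic independence on the upper half plane (from C6, D2 - D7) -/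
def T_AIH : Prop := ∀ (r : ℕ) (a : Fin r → ℕ), Aok a → ∀ P : MvPolynomial (Vr r) ℂ,
  (∀ i, MvPolynomial.degreeOf (Sum.inl (i, 3)) P = 0) → Van a P → P = 0

/-- D9 algebraic independence of the series (from B2, B3, C1, C5, D8) -/
def T_AI : Prop := ∀ (r : ℕ) (a : Fin r → ℕ), Aok a →
  ∀ P : MvPolynomial (Fin r × Fin 4) (Polynomial ℚ),
  MvPolynomial.eval₂ (Polynomial.coeToPowerSeries.ringHom (R := ℚ)) (xs a) P = 0 → P = 0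

/-! ## E. Elimination and counting -/

/-- E1 elimination of `k` numbers from `k + 1` relations -/
def T_EL : Prop := ∀ s k D : ℕ, ∃ B : ℕ, ∀ (θ : Fin k → ℂ) (x : Fin (k + 1) × Fin s → ℂ),
  (∀ i, Rel D θ (fun l => x (i, l))) →
  ∃ R : MvPolynomial (Fin (k + 1) × Fin s) ℤ, R ≠ 0 ∧ R.totalDegree ≤ B ∧
    MvPolynomial.aeval x R = 0

/-- E2 transfer of a relation from the elliptic integrals to the values of the series -/
def T_TR : Prop := ∀ (k D : ℕ) (θ : Fin k → ℂ) (p q b : ℂ) (y : Fin 3 → ℂ) (x : Fin 4 → ℂ),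
  p ≠ 0 → b ≠ 0 → y 0 = p * x 0 → y 1 = p * x 1 →
  y 2 = q * x 0 + b * x 3 * x 0 - 4 * b * x 2 → Rel D θ y →
  Rel (3 * D) (Fin.append θ ![p, q, b]) x

/-- E3 short intervals (from B2, B3, B13, C1, C2, C5, E1, E2) -/
def T_ONE : Prop := ∀ k D : ℕ, ∃ J : ℕ, ∀ A : ℕ, ∃ N0 : ℕ, ∀ (θ : Fin k → ℂ) (N : ℕ), N0 ≤ N →
  {t : ℕ | (N ≤ t ∧ t < N + A) ∧ Rel D θ (pr t)}.ncard ≤ J

/-- E4 density (from E3) -/
def T_DENS : Prop := ∀ (k D : ℕ) (ε : ℝ), 0 < ε → ∃ T0 : ℕ, ∀ (θ : Fin k → ℂ) (T : ℕ), T0 ≤ T →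
  ({t : ℕ | (2 ≤ t ∧ t ≤ T) ∧ Rel D θ (pr t)}.ncard : ℝ) ≤ ε * T

/-- E5 several variables (from E4) -/
def T_MULTI : Prop := ∀ (n k D : ℕ) (ε : ℝ), 0 < ε → ∃ T0 : ℕ, ∀ (θ : Fin k → ℂ) (T : ℕ),
  T0 ≤ T → ({t : Fin n → ℕ | (∀ i, 2 ≤ t i ∧ t i ≤ T) ∧
    Rel D θ (fun q : Fin n × Fin 3 => pr (t q.1) q.2)}.ncard : ℝ) ≤ ε * (T : ℝ) ^ n

end Pool.Agent.Leg
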